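import Pool.Agent.H398R2.BV5
import Pool.Agent.H705R2.MLogE

/-! Vaughan's identity for the Moebius function, with logarithmic weights. -/

set_option autoImplicit false

open Finset

namespace Pool.Agent.Y868.TE

open Pool.Agent.Helper112 Pool.Agent.Helper112.TI Pool.Agent.Helper112.TII
open Pool.Agent.Helper112.BLB Pool.Agent.H398R2.BV

/-- the Moebius function, real valued -/
noncomputable def mu (n : ℕ) : ℝ := ((ArithmeticFunction.moebius n : ℤ) : ℝ)

/-- the tail of the Moebius function -/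
noncomputable def mug (V n : ℕ) : ℝ := if V < n then ((ArithmeticFunction.moebius n : ℤ) : ℝ) else 0

/-- the bilinear part of the Moebius function -/
noncomputable def MuII (V n : ℕ) : ℝ := ∑ i ∈ n.divisorsAntidiagonal, betaV V i.1 * mug V i.2

theorem mu_abs (n : ℕ) : |mu n| ≤ 1 := by
  unfold mu
  exact_mod_cast ArithmeticFunction.abs_moebius_le_one

theorem mug_abs (V n : ℕ) : |mug V n| ≤ 1 := by
  unfold mug
  split_ifs
  · exact mu_abs n
  · simp

open ArithmeticFunction in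
theorem MuII_eq (V n : ℕ) : MuII V n =
    ((((moebius : ArithmeticFunction ℤ) : ArithmeticFunction ℝ) - mu1 V) *
      ((ArithmeticFunction.zeta : ArithmeticFunction ℕ) : ArithmeticFunction ℝ) *
      (((moebius : ArithmeticFunction ℤ) : ArithmeticFunction ℝ) - mu1 V)) n := by
  rw [mul_apply]
  unfold MuII
  apply sum_congr rfl
  rintro ⟨b, c⟩ _
  rw [mul_comm (_ - mu1 V) ((ArithmeticFunction.zeta : ArithmeticFunction ℕ) : ArithmeticFunction ℝ),
    coe_zeta_mul_apply]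
  congr 1
  · unfold betaV
    rw [sum_filter]
    apply sum_congr rfl
    intro e _
    rw [af_sub, mu1_apply, intCoe_apply]
    by_cases h : V < e
    · rw [if_pos h, if_neg (by omega)]; ring
    · rw [if_neg h, if_pos (by omega)]; ring
  · simp only
    unfold mug
    rw [af_sub, mu1_apply, intCoe_apply]
    by_cases h : V < c
    · rw [if_pos h, if_neg (by omega)]; ring
    · rw [if_neg h, if_pos (by omega)]; ring

open ArithmeticFunction in
theorem mu_vaughan (V n : ℕ) : mu n - MuII V n =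
    2 * mu1 V n - (((ArithmeticFunction.zeta : ArithmeticFunction ℕ) : ArithmeticFunction ℝ) *
        (mu1 V * mu1 V)) n := by
  have h1 : ((moebius : ArithmeticFunction ℤ) : ArithmeticFunction ℝ) *
      ((ArithmeticFunction.zeta : ArithmeticFunction ℕ) : ArithmeticFunction ℝ) = 1 :=
    coe_moebius_mul_coe_zeta
  have h3 : ((moebius : ArithmeticFunction ℤ) : ArithmeticFunction ℝ) -
      ((((moebius : ArithmeticFunction ℤ) : ArithmeticFunction ℝ) - mu1 V) *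
      ((ArithmeticFunction.zeta : ArithmeticFunction ℕ) : ArithmeticFunction ℝ) *
      (((moebius : ArithmeticFunction ℤ) : ArithmeticFunction ℝ) - mu1 V)) = (mu1 V + mu1 V) -
      ((ArithmeticFunction.zeta : ArithmeticFunction ℕ) : ArithmeticFunction ℝ) *
        (mu1 V * mu1 V) := by
    linear_combination (-((moebius : ArithmeticFunction ℤ) : ArithmeticFunction ℝ) + 2 * mu1 V) * h1
  have h4 : mu n = ((moebius : ArithmeticFunction ℤ) : ArithmeticFunction ℝ) n := by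
    rw [intCoe_apply]; rfl
  rw [MuII_eq, h4, ← af_sub, h3, af_sub, ArithmeticFunction.add_apply]
  ring

theorem sum_conv2 (V : ℕ) (X : ℝ) :
    ∑ n ∈ Icc 1 ⌊X⌋₊, |(mu1 V * mu1 V) n| ≤ V * V := by
  calc ∑ n ∈ Icc 1 ⌊X⌋₊, |(mu1 V * mu1 V) n| ≤
      ∑ n ∈ Icc 1 ⌊X⌋₊, ∑ i ∈ n.divisorsAntidiagonal, |mu1 V i.1| * |mu1 V i.2| := by
        apply sum_le_sum
        intro n _
        rw [ArithmeticFunction.mul_apply]
        refine (abs_sum_le_sum_abs _ _).trans (le_of_eq ?_)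
        apply sum_congr rfl
        intro i _
        rw [abs_mul]
    _ = ∑ c ∈ Icc 1 ⌊X⌋₊, ∑ b ∈ Icc 1 (⌊X⌋₊ / c), |mu1 V b| * |mu1 V c| :=
        hyperC ⌊X⌋₊ (fun b c => |mu1 V b| * |mu1 V c|)
    _ ≤ ∑ c ∈ Icc 1 ⌊X⌋₊, V * |mu1 V c| := by
        apply sum_le_sum
        intro c _
        rw [← sum_mul]
        exact mul_le_mul_of_nonneg_right (sum_mu1 V _) (abs_nonneg _)
    _ = V * ∑ c ∈ Icc 1 ⌊X⌋₊, |mu1 V c| := by rw [mul_sum]
    _ ≤ _ := mul_le_mul_of_nonneg_left (sum_mu1 V _) (by positivity)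

/-- Type I bound. -/
theorem typeI_mu (X : ℝ) (hX : 1 ≤ X) (V f : ℕ) (hV : 1 ≤ V) (hf : 2 ≤ f)
    (ψ : DirichletCharacter ℂ f) (hψ : ψ ≠ 1) :
    ‖TL X f ψ (fun n => mu n - MuII V n)‖ ≤ 5 * V * V * f * Real.log X := by
  have hL : 0 ≤ Real.log X := Real.log_nonneg hX
  have hV' : (1 : ℝ) ≤ V := by exact_mod_cast hV
  have hf' : (1 : ℝ) ≤ f := by
    have : 1 ≤ f := by omega
    exact_mod_cast this
  set zt : ArithmeticFunction ℝ :=
    ((ArithmeticFunction.zeta : ArithmeticFunction ℕ) : ArithmeticFunction ℝ) with hzt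
  have e : TL X f ψ (fun n => mu n - MuII V n) =
      TL X f ψ (fun n => mu1 V n + mu1 V n) - TL X f ψ (fun n => (zt * (mu1 V * mu1 V)) n) := by
    rw [← TL_sub]
    congr 1
    funext n
    rw [mu_vaughan V n]
    ring
  rw [e, TL_add]
  have t1 : ‖TL X f ψ (fun n => mu1 V n)‖ ≤ V * Real.log X := by
    unfold TL
    refine (norm_sum_le _ _).trans ?_
    calc ∑ n ∈ Icc 1 ⌊X⌋₊, ‖((mu1 V n : ℝ) : ℂ) * ψ (n : ZMod f) *
        ((Real.log (X / n) : ℝ) : ℂ)‖ ≤ ∑ n ∈ Icc 1 ⌊X⌋₊, |mu1 V n| * Real.log X := by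
          apply sum_le_sum
          intro n hn
          rw [mem_Icc] at hn
          have hn0 : (1:ℝ) ≤ n := by exact_mod_cast hn.1
          have hnX : (n:ℝ) ≤ X := (Nat.le_floor_iff (by linarith)).mp hn.2
          rw [norm_mul, norm_mul, Complex.norm_real, Complex.norm_real, Real.norm_eq_abs,
            Real.norm_eq_abs]
          have h1 : |Real.log (X / n)| ≤ Real.log X := by
            rw [abs_of_nonneg]
            · apply Real.log_le_log (by positivity)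
              exact div_le_self (by linarith) hn0
            · apply Real.log_nonneg
              rwa [le_div_iff₀ (by linarith), one_mul]
          have h2 := ψ.norm_le_one (n : ZMod f)
          have h3 := abs_nonneg (mu1 V n)
          calc |mu1 V n| * ‖ψ (n : ZMod f)‖ * |Real.log (X / n)| ≤ |mu1 V n| * 1 * Real.log X := by
                gcongr
            _ = _ := by ring
      _ = (∑ n ∈ Icc 1 ⌊X⌋₊, |mu1 V n|) * Real.log X := by rw [sum_mul]
      _ ≤ V * Real.log X := mul_le_mul_of_nonneg_right (sum_mu1 V _) hL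
  have t3 : ‖TL X f ψ (fun n => (zt * (mu1 V * mu1 V)) n)‖ ≤
      (V * V) * (3 * f * Real.log X) := by
    have e3 : TL X f ψ (fun n => (zt * (mu1 V * mu1 V)) n) =
        ∑ c ∈ Icc 1 ⌊X⌋₊, (((mu1 V * mu1 V) c : ℝ) : ℂ) * ψ (c : ZMod f) *
          ∑ b ∈ Icc 1 (⌊X⌋₊ / c), ψ (b : ZMod f) *
            ((Real.log (X / ((b * c : ℕ) : ℝ)) : ℝ) : ℂ) := by
      have h1 : TL X f ψ (fun n => (zt * (mu1 V * mu1 V)) n) =
          ∑ n ∈ Icc 1 ⌊X⌋₊, ∑ i ∈ n.divisorsAntidiagonal,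
          (((mu1 V * mu1 V) i.2 : ℝ) : ℂ) * ψ (i.2 : ZMod f) * (ψ (i.1 : ZMod f) *
            ((Real.log (X / ((i.1 * i.2 : ℕ) : ℝ)) : ℝ) : ℂ)) := by
        unfold TL
        apply sum_congr rfl
        intro n _
        beta_reduce
        rw [ArithmeticFunction.mul_apply, Complex.ofReal_sum, sum_mul, sum_mul]
        apply sum_congr rfl
        intro i hi
        rw [Nat.mem_divisorsAntidiagonal] at hi
        have hi1 : i.1 ≠ 0 := by
          rintro h
          rw [h] at hi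
          simp at hi
          omega
        have hz : zt i.1 = 1 := by
          rw [hzt, ArithmeticFunction.natCoe_apply, ArithmeticFunction.zeta_apply, if_neg hi1]
          simp
        rw [hz, ← hi.1]
        push_cast
        rw [map_mul]
        ring
      rw [h1, hyperC ⌊X⌋₊ (fun b c => (((mu1 V * mu1 V) c : ℝ) : ℂ) * ψ (c : ZMod f) *
        (ψ (b : ZMod f) * ((Real.log (X / ((b * c : ℕ) : ℝ)) : ℝ) : ℂ)))]
      apply sum_congr rfl
      intro c _
      rw [mul_sum]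
    rw [e3]
    refine (norm_sum_le _ _).trans ?_
    calc _ ≤ ∑ c ∈ Icc 1 ⌊X⌋₊, |(mu1 V * mu1 V) c| * (3 * f * Real.log X) := by
          apply sum_le_sum
          intro c hc
          rw [mem_Icc] at hc
          have hcX : (c:ℝ) ≤ X := (Nat.le_floor_iff (by linarith)).mp hc.2
          have hMX : ((⌊X⌋₊ / c : ℕ) : ℝ) ≤ X :=
            (Nat.le_floor_iff (by linarith)).mp (Nat.div_le_self _ _)
          rw [norm_mul, norm_mul, Complex.norm_real, Real.norm_eq_abs]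
          have h1 := inner_log hf ψ hψ X hX c (⌊X⌋₊ / c) hc.1 hcX hMX
          have h2 := ψ.norm_le_one (c : ZMod f)
          have h3 := abs_nonneg ((mu1 V * mu1 V) c)
          calc _ ≤ |(mu1 V * mu1 V) c| * 1 * (3 * f * Real.log X) := by gcongr
            _ = _ := by ring
      _ = (∑ c ∈ Icc 1 ⌊X⌋₊, |(mu1 V * mu1 V) c|) * (3 * f * Real.log X) := by rw [sum_mul]
      _ ≤ _ := mul_le_mul_of_nonneg_right (sum_conv2 V X) (by positivity)
  refine (norm_sub_le _ _).trans ?_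
  have t12 := norm_add_le (TL X f ψ (fun n => mu1 V n)) (TL X f ψ (fun n => mu1 V n))
  have a1 : (V:ℝ) * Real.log X ≤ V * V * f * Real.log X := by
    apply mul_le_mul_of_nonneg_right _ hL
    have : (V:ℝ) * 1 ≤ V * (V * f) := mul_le_mul_of_nonneg_left (by nlinarith) (by linarith)
    linarith
  have a3 : (V:ℝ) * V * (3 * f * Real.log X) = 3 * (V * V * f * Real.log X) := by
    ring
  linarith

theorem block_pointwise' (X : ℝ) (hX : 1 ≤ X) (V F0 F1 : ℕ) (hV : 1 ≤ V)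
    (h0 : 1 ≤ F0) (h1 : 1 ≤ F1) (t : ℝ) (ht1 : 1 ≤ t) (ht2 : t ≤ X) :
    ∑ f ∈ Icc F0 F1, (1 / (Nat.totient f : ℝ)) * P ⌊t⌋₊ ⌊X / t⌋₊ (betaV V) (mug V) f ≤
      12 * (1 + Real.log F1) * (Real.sqrt X / F0 + (Real.sqrt (X / V) + Real.sqrt (X / V)) + F1) *
        (Real.sqrt X * (1 + Real.log X) ^ 3) := by
  have hL : 0 ≤ Real.log X := Real.log_nonneg hX
  have hlogF : 0 ≤ Real.log F1 := Real.log_natCast_nonneg F1
  have ht0 : 0 < t := by linarith
  have hXt : 1 ≤ X / t := by rw [le_div_iff₀ ht0]; linarith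
  have hV0 : (0:ℝ) < V := by exact_mod_cast hV
  refine (step45 ⌊t⌋₊ ⌊X / t⌋₊ (betaV V) (mug V) F0 F1 h0 h1).trans ?_
  have hRHS : 0 ≤ 12 * (1 + Real.log F1) *
      (Real.sqrt X / F0 + (Real.sqrt (X / V) + Real.sqrt (X / V)) + F1) *
        (Real.sqrt X * (1 + Real.log X) ^ 3) := by positivity
  rcases Nat.lt_or_ge V ⌊t⌋₊ with hVt | hVt
  swap
  · have : ∑ b ∈ Icc 1 ⌊t⌋₊, betaV V b ^ 2 = 0 := by
      apply sum_eq_zero
      intro b hb
      rw [mem_Icc] at hb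
      rw [betaV_zero V b (hb.2.trans hVt)]
      simp
    rw [this]
    simpa using hRHS
  rcases Nat.lt_or_ge V ⌊X / t⌋₊ with hUt | hUt
  swap
  · have : ∑ c ∈ Icc 1 ⌊X / t⌋₊, mug V c ^ 2 = 0 := by
      apply sum_eq_zero
      intro c hc
      rw [mem_Icc] at hc
      have : mug V c = 0 := by
        unfold mug
        rw [if_neg (by omega)]
      rw [this]
      simp
    rw [this]
    simpa using hRHS
  have hx1 : (⌊t⌋₊ : ℝ) ≤ t := Nat.floor_le (by linarith)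
  have hy1 : (⌊X / t⌋₊ : ℝ) ≤ X / t := Nat.floor_le (by linarith)
  have hVr : (V : ℝ) ≤ ⌊t⌋₊ := by exact_mod_cast hVt.le
  have hUr : (V : ℝ) ≤ ⌊X / t⌋₊ := by exact_mod_cast hUt.le
  have hVt' : (V : ℝ) ≤ t := hVr.trans hx1
  have hUt' : (V : ℝ) ≤ X / t := hUr.trans hy1
  have hy2 : (⌊X / t⌋₊ : ℝ) ≤ X / V := by
    refine hy1.trans ?_
    exact div_le_div_of_nonneg_left (by linarith) hV0 hVt'
  have hx2 : (⌊t⌋₊ : ℝ) ≤ X / V := by
    refine hx1.trans ?_
    rw [le_div_iff₀ hV0]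
    rw [le_div_iff₀ ht0] at hUt'
    linarith
  have hxy : (⌊t⌋₊ : ℝ) * (⌊X / t⌋₊ : ℝ) ≤ X := by
    calc (⌊t⌋₊ : ℝ) * (⌊X / t⌋₊ : ℝ) ≤ t * (X / t) :=
          mul_le_mul hx1 hy1 (by positivity) (by linarith)
      _ = X := by field_simp
  have hx3 : (⌊t⌋₊ : ℝ) ≤ X := hx1.trans ht2
  have s1 : Real.sqrt (∑ b ∈ Icc 1 ⌊t⌋₊, betaV V b ^ 2) ≤
      Real.sqrt ⌊t⌋₊ * (1 + Real.log X) ^ 2 := by
    rw [Real.sqrt_le_left (by positivity)]
    refine (sum_betaV_sq V ⌊t⌋₊).trans ?_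
    rw [mul_pow, Real.sq_sqrt (by positivity)]
    apply mul_le_mul_of_nonneg_left _ (by positivity)
    have h2 := log_natCast_le ⌊t⌋₊ X hX hx3
    have h3 := Real.log_natCast_nonneg ⌊t⌋₊
    calc (1 + Real.log ⌊t⌋₊) ^ 3 ≤ (1 + Real.log X) ^ 3 :=
          pow_le_pow_left₀ (by linarith) (by linarith) 3
      _ ≤ (1 + Real.log X) ^ 4 := pow_le_pow_right₀ (by linarith) (by norm_num)
      _ = ((1 + Real.log X) ^ 2) ^ 2 := by ring
  have s2 : Real.sqrt (∑ c ∈ Icc 1 ⌊X / t⌋₊, mug V c ^ 2) ≤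
      Real.sqrt ⌊X / t⌋₊ * (1 + Real.log X) := by
    have h2 : ∑ c ∈ Icc 1 ⌊X / t⌋₊, mug V c ^ 2 ≤ ⌊X / t⌋₊ := by
      calc ∑ c ∈ Icc 1 ⌊X / t⌋₊, mug V c ^ 2 ≤ ∑ _c ∈ Icc 1 ⌊X / t⌋₊, (1:ℝ) := by
            apply sum_le_sum
            intro c _
            rw [← sq_abs]
            exact pow_le_one₀ (abs_nonneg _) (mug_abs V c)
        _ = _ := by simp
    calc Real.sqrt (∑ c ∈ Icc 1 ⌊X / t⌋₊, mug V c ^ 2) ≤ Real.sqrt ⌊X / t⌋₊ := Real.sqrt_le_sqrt h2
      _ = Real.sqrt ⌊X / t⌋₊ * 1 := (mul_one _).symm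
      _ ≤ _ := mul_le_mul_of_nonneg_left (by linarith) (Real.sqrt_nonneg _)
  have s3 : Real.sqrt (∑ b ∈ Icc 1 ⌊t⌋₊, betaV V b ^ 2) *
      Real.sqrt (∑ c ∈ Icc 1 ⌊X / t⌋₊, mug V c ^ 2) ≤ Real.sqrt X * (1 + Real.log X) ^ 3 := by
    refine (mul_le_mul s1 s2 (Real.sqrt_nonneg _) (by positivity)).trans ?_
    calc Real.sqrt ⌊t⌋₊ * (1 + Real.log X) ^ 2 * (Real.sqrt ⌊X / t⌋₊ * (1 + Real.log X)) =
        (Real.sqrt ⌊t⌋₊ * Real.sqrt ⌊X / t⌋₊) * (1 + Real.log X) ^ 3 := by ring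
      _ = Real.sqrt ((⌊t⌋₊ : ℝ) * (⌊X / t⌋₊ : ℝ)) * (1 + Real.log X) ^ 3 := by
          rw [Real.sqrt_mul (by positivity)]
      _ ≤ _ := by
          apply mul_le_mul_of_nonneg_right _ (by positivity)
          exact Real.sqrt_le_sqrt hxy
  have s4 : Real.sqrt ((⌊t⌋₊ : ℝ) * (⌊X / t⌋₊ : ℝ)) ≤ Real.sqrt X := Real.sqrt_le_sqrt hxy
  have s5 : Real.sqrt ⌊t⌋₊ ≤ Real.sqrt (X / V) := Real.sqrt_le_sqrt hx2
  have s6 : Real.sqrt ⌊X / t⌋₊ ≤ Real.sqrt (X / V) := Real.sqrt_le_sqrt hy2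
  gcongr

/-- Type II bound over a block of moduli. -/
theorem typeII_mu (X : ℝ) (hX : 1 ≤ X) (V F0 F1 : ℕ) (hV : 1 ≤ V)
    (h0 : 1 ≤ F0) (h1 : 1 ≤ F1) :
    ∑ f ∈ Icc F0 F1, (1 / (Nat.totient f : ℝ)) * ∑ ψ ∈ Prim f, ‖TL X f ψ (MuII V)‖ ≤
      12 * (1 + Real.log F1) * (Real.sqrt X / F0 + (Real.sqrt (X / V) + Real.sqrt (X / V)) + F1) *
        (Real.sqrt X * (1 + Real.log X) ^ 3) * Real.log X :=
  sum_TL_le X hX (Icc F0 F1) (fun f => 1 / (Nat.totient f : ℝ)) (fun f => by positivity)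
    (betaV V) (mug V) _ (fun t ht1 ht2 => block_pointwise' X hX V F0 F1 hV h0 h1 t ht1 ht2)

/-- large conductors -/
theorem large_mu (X : ℝ) (hX : 1 ≤ X) (hL1 : 1 ≤ Real.log X) (W G F : ℕ) (hW : 1 ≤ W) (hG : 2 ≤ G) (hF : 1 ≤ F) :
    ∑ f ∈ Icc G F, (1 / (Nat.totient f : ℝ)) * ∑ ψ ∈ Prim f, ‖TL X f ψ mu‖ ≤
      8 * W ^ 2 * F ^ 2 * Real.log X ^ 2 +
      12 * (1 + Real.log F) * (Real.sqrt X / (G : ℝ) +
        (Real.sqrt (X / W) + Real.sqrt (X / W)) + F) * (Real.sqrt X * (1 + Real.log X) ^ 3) *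
          Real.log X := by
  have hII := typeII_mu X hX W G F hW (by omega) hF
  have hL : 0 ≤ Real.log X := Real.log_nonneg hX
  have h1 : ∑ f ∈ Icc G F, (1 / (Nat.totient f : ℝ)) * ∑ ψ ∈ Prim f, ‖TL X f ψ mu‖ ≤
      ∑ f ∈ Icc G F, 8 * (W:ℝ) ^ 2 * F * Real.log X ^ 2 +
      ∑ f ∈ Icc G F, (1 / (Nat.totient f : ℝ)) *
        ∑ ψ ∈ Prim f, ‖TL X f ψ (MuII W)‖ := by
    rw [← sum_add_distrib]
    apply sum_le_sum
    intro f hf
    rw [mem_Icc] at hf
    have hφ : (0:ℝ) < Nat.totient f := by exact_mod_cast Nat.totient_pos.mpr (by omega)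
    have hc := card_prim_le (f := f) (by omega)
    have hfF : (f:ℝ) ≤ F := by exact_mod_cast hf.2
    calc (1 / (Nat.totient f : ℝ)) * ∑ ψ ∈ Prim f, ‖TL X f ψ mu‖
        ≤ (1 / (Nat.totient f : ℝ)) * ∑ ψ ∈ Prim f,
          (8 * W * W * f * Real.log X ^ 2 + ‖TL X f ψ (MuII W)‖) := by
          apply mul_le_mul_of_nonneg_left _ (by positivity)
          apply sum_le_sum
          intro ψ hψ
          have h1 := typeI_mu X hX W f hW (by omega) ψ (prim_ne_one (by omega) hψ)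
          have h2 : TL X f ψ mu = TL X f ψ (fun n => mu n - MuII W n) + TL X f ψ (MuII W) := by
            have h3 := TL_add X f ψ (fun n => mu n - MuII W n) (MuII W)
            rw [← h3]
            congr 1
            funext n
            ring
          rw [h2]
          refine (norm_add_le _ _).trans (add_le_add_left (h1.trans ?_) _)
          have h4 : Real.log X ≤ Real.log X ^ 2 := by nlinarith
          calc 5 * (W:ℝ) * W * f * Real.log X ≤ 5 * (W:ℝ) * W * f * Real.log X ^ 2 := by gcongr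
            _ ≤ 8 * W * W * f * Real.log X ^ 2 := by
                have : 0 ≤ (W:ℝ) * W * f * Real.log X ^ 2 := by positivity
                nlinarith
      _ = ((Prim f).card : ℝ) / (Nat.totient f : ℝ) * (8 * W * W * f * Real.log X ^ 2) +
          (1 / (Nat.totient f : ℝ)) * ∑ ψ ∈ Prim f, ‖TL X f ψ (MuII W)‖ := by
          rw [sum_add_distrib, sum_const, nsmul_eq_mul]; ring
      _ ≤ 8 * (W:ℝ) ^ 2 * F * Real.log X ^ 2 +
          (1 / (Nat.totient f : ℝ)) * ∑ ψ ∈ Prim f, ‖TL X f ψ (MuII W)‖ := by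
          apply add_le_add_left
          calc ((Prim f).card : ℝ) / (Nat.totient f : ℝ) * (8 * W * W * f * Real.log X ^ 2)
              ≤ 1 * (8 * W * W * F * Real.log X ^ 2) := by
                apply mul_le_mul _ _ (by positivity) (by norm_num)
                · rw [div_le_one hφ]; exact hc
                · gcongr
            _ = _ := by ring
  refine h1.trans (add_le_add ?_ hII)
  rw [sum_const, nsmul_eq_mul, Nat.card_Icc]
  have h2 : ((F + 1 - G : ℕ) : ℝ) ≤ F := by exact_mod_cast (by omega : F + 1 - G ≤ F)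
  calc ((F + 1 - G : ℕ) : ℝ) * (8 * (W:ℝ) ^ 2 * F * Real.log X ^ 2) ≤
      F * (8 * (W:ℝ) ^ 2 * F * Real.log X ^ 2) := by gcongr
    _ = _ := by ring

end Pool.Agent.Y868.TE
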