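import Pool.Agent.Y868.TE.L2
import Pool.Agent.H398R2.BV6

/-! The Liouville function, and the mean value over primitive characters. -/

set_option autoImplicit false

open Finset Filter Topology

namespace Pool.Agent.Y868.TE

open Pool.Agent.Helper112 Pool.Agent.Helper112.BLB Pool.Agent.H398R2.BV

/-- the Liouville function on the natural numbers, zero at zero -/
noncomputable def lio (n : ℕ) : ℝ := if n = 0 then 0 else (-1) ^ ArithmeticFunction.cardFactors n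

lemma lio_zero : lio 0 = 0 := by simp [lio]

lemma lio_ne {n : ℕ} (hn : n ≠ 0) : lio n = (-1) ^ ArithmeticFunction.cardFactors n := by
  unfold lio; rw [if_neg hn]

lemma lio_abs (n : ℕ) : |lio n| ≤ 1 := by
  unfold lio
  split_ifs
  · simp
  · rw [abs_pow, abs_neg, abs_one, one_pow]

lemma lio_mul (m n : ℕ) : lio (m * n) = lio m * lio n := by
  rcases Nat.eq_zero_or_pos m with h | h
  · subst h; simp [lio_zero]
  rcases Nat.eq_zero_or_pos n with h' | h'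
  · subst h'; simp [lio_zero]
  rw [lio_ne (Nat.mul_pos h h').ne', lio_ne h.ne', lio_ne h'.ne',
    ArithmeticFunction.cardFactors_mul h.ne' h'.ne', pow_add]

lemma lio_sq (n : ℕ) (hn : n ≠ 0) : lio n * lio n = 1 := by
  rw [lio_ne hn, ← mul_pow]; norm_num

lemma lio_sqfree {n : ℕ} (hn : Squarefree n) : lio n = mu n := by
  have h0 : n ≠ 0 := hn.ne_zero
  rw [lio_ne h0]
  unfold mu
  rw [ArithmeticFunction.moebius_apply_of_squarefree hn]
  push_cast; rfl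

lemma sq_unique (a b c d : ℕ) (ha : Squarefree a) (hc : Squarefree c) (hb : b ≠ 0) (hd : d ≠ 0)
    (h : b ^ 2 * a = d ^ 2 * c) : b = d := by
  apply Nat.eq_of_factorization_eq hb hd
  intro p
  have h1 : (b ^ 2 * a).factorization p = (d ^ 2 * c).factorization p := by rw [h]
  rw [Nat.factorization_mul (pow_ne_zero 2 hb) ha.ne_zero, Nat.factorization_mul (pow_ne_zero 2 hd) hc.ne_zero,
    Nat.factorization_pow, Nat.factorization_pow] at h1
  simp only [Finsupp.coe_add, Finsupp.coe_smul, Pi.add_apply, Pi.smul_apply, smul_eq_mul] at h1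
  have h2 := ha.natFactorization_le_one p
  have h3 := hc.natFactorization_le_one p
  omega

/-- the square part -/
lemma sq_part (n : ℕ) (hn : 0 < n) : ∃ b : ℕ, 0 < b ∧ b ^ 2 ∣ n ∧
    ∀ D : ℕ, ∑ d ∈ Icc 1 D, (if d ^ 2 ∣ n then mu (n / d ^ 2) else 0) = if b ≤ D then lio n else 0 := by
  obtain ⟨a, b, ha, hb, hab, hsf⟩ := Nat.sq_mul_squarefree_of_pos hn
  refine ⟨b, hb, ⟨a, hab.symm⟩, fun D => ?_⟩
  have h1 : ∀ d ∈ Icc 1 D, (if d ^ 2 ∣ n then mu (n / d ^ 2) else 0) = if d = b then lio n else 0 := by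
    intro d hd
    rw [mem_Icc] at hd
    have hd2 : 0 < d ^ 2 := pow_pos (by omega) 2
    by_cases hdb : d = b
    · subst hdb
      rw [if_pos ⟨a, hab.symm⟩, if_pos rfl]
      have h2 : n / d ^ 2 = a := by
        rw [← hab]; exact Nat.mul_div_cancel_left a hd2
      rw [h2, ← hab, lio_mul, pow_two, lio_mul, lio_sq d (by omega), one_mul, lio_sqfree hsf]
    · rw [if_neg hdb]
      split_ifs with hdn
      · obtain ⟨c, hc⟩ := hdn
        have h2 : n / d ^ 2 = c := by rw [hc]; exact Nat.mul_div_cancel_left c hd2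
        rw [h2]
        unfold mu
        rw [ArithmeticFunction.moebius_eq_zero_of_not_squarefree]
        · simp
        · intro hcs
          apply hdb
          exact (sq_unique a b c d hsf hcs hb.ne' (by omega) (by rw [hab, hc])).symm
      · rfl
  rw [sum_congr rfl h1, sum_ite_eq']
  by_cases hbD : b ≤ D
  · rw [if_pos (mem_Icc.2 ⟨hb, hbD⟩), if_pos hbD]
  · rw [if_neg (fun h => hbD (mem_Icc.1 h).2), if_neg hbD]

/-- the part of the Liouville function with a large square divisor -/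
noncomputable def RD (D n : ℕ) : ℝ := lio n - ∑ d ∈ Icc 1 D, (if d ^ 2 ∣ n then mu (n / d ^ 2) else 0)

lemma RD_bound (D n : ℕ) (hn : 0 < n) : RD D n ^ 2 ≤ ∑ d ∈ Ioc D n, (if d ^ 2 ∣ n then (1:ℝ) else 0) := by
  obtain ⟨b, hb, hbn, hsum⟩ := sq_part n hn
  unfold RD
  rw [hsum D]
  have hnn : ∀ d ∈ Ioc D n, (0:ℝ) ≤ (if d ^ 2 ∣ n then (1:ℝ) else 0) := by
    intro d _; split_ifs <;> norm_num
  by_cases hbD : b ≤ D
  · rw [if_pos hbD, sub_self]
    simpa using sum_nonneg hnn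
  · rw [if_neg hbD, sub_zero]
    have hble : b ≤ n := (Nat.le_self_pow two_ne_zero b).trans (Nat.le_of_dvd hn hbn)
    have h1 := single_le_sum hnn (mem_Ioc.2 ⟨not_le.1 hbD, hble⟩)
    rw [if_pos hbn] at h1
    refine le_trans ?_ h1
    rw [← sq_abs]
    exact pow_le_one₀ (abs_nonneg _) (lio_abs n)

lemma sum_RD (D Y : ℕ) (hD : 1 ≤ D) : ∑ n ∈ Icc 1 Y, RD D n ^ 2 ≤ (Y:ℝ) / D := by
  have hD0 : (0:ℝ) < D := by exact_mod_cast hD
  calc ∑ n ∈ Icc 1 Y, RD D n ^ 2 ≤ ∑ n ∈ Icc 1 Y, ∑ d ∈ Ioc D Y, (if d ^ 2 ∣ n then (1:ℝ) else 0) := by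
        apply sum_le_sum
        intro n hn
        rw [mem_Icc] at hn
        refine (RD_bound D n hn.1).trans ?_
        apply sum_le_sum_of_subset_of_nonneg
        · intro d hd
          rw [mem_Ioc] at hd ⊢
          omega
        · intro d _ _; split_ifs <;> norm_num
    _ = ∑ d ∈ Ioc D Y, ∑ n ∈ Icc 1 Y, (if d ^ 2 ∣ n then (1:ℝ) else 0) := sum_comm
    _ ≤ ∑ d ∈ Ioc D Y, (Y:ℝ) * (((d:ℝ) ^ 2)⁻¹) := by
        apply sum_le_sum
        intro d hd
        rw [mem_Ioc] at hd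
        rw [← sum_filter, sum_const, nsmul_eq_mul, mul_one]
        have h1 : ((Icc 1 Y).filter (fun n => d ^ 2 ∣ n)).card = Y / d ^ 2 := by
          have := Nat.Ioc_filter_dvd_card_eq_div Y (d ^ 2)
          rw [← this]
          congr 1
        rw [h1]
        have h2 : ((Y / d ^ 2 : ℕ) : ℝ) ≤ (Y:ℝ) / ((d ^ 2 : ℕ) : ℝ) := Nat.cast_div_le
        push_cast at h2
        rw [← div_eq_mul_inv]
        exact h2
    _ = (Y:ℝ) * ∑ d ∈ Ioc D Y, (((d:ℝ) ^ 2)⁻¹) := by rw [mul_sum]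
    _ ≤ (Y:ℝ) * (D:ℝ)⁻¹ := by
        apply mul_le_mul_of_nonneg_left _ (Nat.cast_nonneg _)
        rcases le_total D Y with h | h
        · have h1 := sum_Ioc_inv_sq_le_sub (α := ℝ) (k := D) (n := Y) (by omega) h
          have h2 : (0:ℝ) ≤ (Y:ℝ)⁻¹ := by positivity
          linarith
        · rw [Ioc_eq_empty (by omega), sum_empty]
          positivity
    _ = _ := by rw [div_eq_mul_inv]

/-- dilation -/
lemma TL_dil (X : ℝ) (hX : 0 ≤ X) (f : ℕ) (ψ : DirichletCharacter ℂ f) (k : ℕ) (hk : 1 ≤ k) (g : ℕ → ℝ) :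
    TL X f ψ (fun n => if k ∣ n then g (n / k) else 0) = ψ (k : ZMod f) * TL (X / k) f ψ g := by
  unfold TL
  have hk0 : (0:ℝ) < k := by exact_mod_cast hk
  have hfl : ⌊X / k⌋₊ = ⌊X⌋₊ / k := Nat.floor_div_natCast X k
  have h1 : ∑ n ∈ Icc 1 ⌊X⌋₊, (((if k ∣ n then g (n / k) else 0 : ℝ)) : ℂ) * ψ (n : ZMod f) * ((Real.log (X / n) : ℝ) : ℂ) =
      ∑ n ∈ (Icc 1 ⌊X⌋₊).filter (fun n => k ∣ n), ((g (n / k) : ℝ) : ℂ) * ψ (n : ZMod f) * ((Real.log (X / n) : ℝ) : ℂ) := by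
    rw [sum_filter]
    apply sum_congr rfl
    intro n _
    split_ifs <;> simp
  have h2 : (Icc 1 ⌊X⌋₊).filter (fun n => k ∣ n) = (Icc 1 ⌊X / k⌋₊).image (fun j => k * j) := by
    rw [hfl]
    ext n
    rw [mem_filter, mem_Icc, mem_image]
    constructor
    · rintro ⟨⟨h1, h2⟩, j, rfl⟩
      refine ⟨j, ?_, rfl⟩
      rw [mem_Icc, Nat.le_div_iff_mul_le (by omega)]
      refine ⟨?_, by rw [mul_comm]; exact h2⟩
      by_contra h
      have : j = 0 := by omega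
      subst this
      simp at h1
    · rintro ⟨j, hj, rfl⟩
      rw [mem_Icc, Nat.le_div_iff_mul_le (by omega)] at hj
      refine ⟨⟨Nat.mul_pos (by omega) hj.1, by rw [mul_comm]; exact hj.2⟩, dvd_mul_right _ _⟩
  rw [h1, h2, sum_image (by intro a _ b _ h; exact Nat.eq_of_mul_eq_mul_left (by omega) h), mul_sum]
  apply sum_congr rfl
  intro j hj
  rw [mem_Icc] at hj
  rw [Nat.mul_div_cancel_left j (by omega : 0 < k)]
  have h3 : X / ((k * j : ℕ) : ℝ) = X / k / j := by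
    push_cast; rw [div_div]
  rw [h3]
  push_cast
  rw [map_mul]
  ring

lemma TL_sum (X : ℝ) (f : ℕ) (ψ : DirichletCharacter ℂ f) (S : Finset ℕ) (g : ℕ → ℕ → ℝ) :
    TL X f ψ (fun n => ∑ d ∈ S, g d n) = ∑ d ∈ S, TL X f ψ (g d) := by
  unfold TL
  rw [sum_comm]
  apply sum_congr rfl
  intro n _
  rw [Complex.ofReal_sum, sum_mul, sum_mul]

lemma TL_congr (X : ℝ) (f : ℕ) (ψ : DirichletCharacter ℂ f) (g h : ℕ → ℝ) (hgh : ∀ n, 1 ≤ n → g n = h n) :
    TL X f ψ g = TL X f ψ h := by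
  unfold TL
  apply sum_congr rfl
  intro n hn
  rw [hgh n (mem_Icc.1 hn).1]

lemma TL_lio (X : ℝ) (hX : 0 ≤ X) (f : ℕ) (ψ : DirichletCharacter ℂ f) (D : ℕ) :
    ‖TL X f ψ lio‖ ≤ ∑ d ∈ Icc 1 D, ‖TL (X / (d ^ 2 : ℕ)) f ψ mu‖ + ‖TL X f ψ (RD D)‖ := by
  have h1 : TL X f ψ lio = ∑ d ∈ Icc 1 D, ψ ((d ^ 2 : ℕ) : ZMod f) * TL (X / (d ^ 2 : ℕ)) f ψ mu + TL X f ψ (RD D) := by
    have h2 : ∀ d ∈ Icc 1 D, ψ ((d ^ 2 : ℕ) : ZMod f) * TL (X / (d ^ 2 : ℕ)) f ψ mu =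
        TL X f ψ (fun n => if d ^ 2 ∣ n then mu (n / d ^ 2) else 0) := by
      intro d hd
      rw [mem_Icc] at hd
      rw [TL_dil X hX f ψ (d ^ 2) (Nat.pos_of_ne_zero (pow_ne_zero 2 (by omega))) mu]
    rw [sum_congr rfl h2, ← TL_sum, ← TL_add]
    apply TL_congr
    intro n _
    unfold RD
    ring
  rw [h1]
  refine (norm_add_le _ _).trans (add_le_add_left ((norm_sum_le _ _).trans (sum_le_sum fun d _ => ?_)) _)
  rw [norm_mul]
  exact mul_le_of_le_one_left (norm_nonneg _) (ψ.norm_le_one _)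

/-- the large squares by the large sieve -/
theorem large_sq (X : ℝ) (hX : 1 ≤ X) (D F : ℕ) (hD : 1 ≤ D) (hF : 1 ≤ F) (hFX : (F:ℝ) ≤ Real.sqrt X) :
    ∑ f ∈ Icc 1 F, (1 / (Nat.totient f : ℝ)) * ∑ ψ ∈ Prim f, ‖TL X f ψ (RD D)‖ ≤
      12 * (1 + Real.log X) * (4 * Real.sqrt X) * (Real.sqrt (X / D)) * Real.log X := by
  have hL : 0 ≤ Real.log X := Real.log_nonneg hX
  set δ : ℕ → ℝ := fun n => if n = 1 then 1 else 0 with hδ
  have hsX1 : 1 ≤ Real.sqrt X := Real.one_le_sqrt.2 hX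
  have hD0 : (0:ℝ) < D := by exact_mod_cast hD
  have h0 : ∀ f, ∀ ψ ∈ Prim f, ‖TL X f ψ (RD D)‖ = ‖TL X f ψ (fun n => ∑ i ∈ n.divisorsAntidiagonal, RD D i.1 * δ i.2)‖ := by
    intro f ψ _
    congr 1
    apply TL_congr
    intro n hn
    rw [sum_eq_single (n, 1)]
    · rw [hδ]; simp
    · rintro ⟨b, c⟩ hb hne
      rw [Nat.mem_divisorsAntidiagonal] at hb
      simp only at hb
      have : c ≠ 1 := by
        rintro rfl
        apply hne
        rw [mul_one] at hb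
        rw [hb.1]
      rw [hδ]
      simp [this]
    · intro h
      exfalso
      apply h
      rw [Nat.mem_divisorsAntidiagonal]
      exact ⟨by simp, by omega⟩
  have h1 := sum_TL_le X hX (Icc 1 F) (fun f => 1 / (Nat.totient f : ℝ)) (fun f => by positivity)
    (RD D) δ (12 * (1 + Real.log X) * (4 * Real.sqrt X) * (Real.sqrt (X / D))) (by
      intro t ht1 ht2
      have ht0 : 0 < t := by linarith
      have hXt : 1 ≤ X / t := by rw [le_div_iff₀ ht0]; linarith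
      refine (step45 ⌊t⌋₊ ⌊X / t⌋₊ (RD D) δ 1 F le_rfl hF).trans ?_
      have hx1 : (⌊t⌋₊ : ℝ) ≤ t := Nat.floor_le (by linarith)
      have hy1 : (⌊X / t⌋₊ : ℝ) ≤ X / t := Nat.floor_le (by linarith)
      have hx3 : (⌊t⌋₊ : ℝ) ≤ X := hx1.trans ht2
      have hy3 : (⌊X / t⌋₊ : ℝ) ≤ X := hy1.trans (div_le_self (by linarith) ht1)
      have hxy : (⌊t⌋₊ : ℝ) * (⌊X / t⌋₊ : ℝ) ≤ X := by
        calc (⌊t⌋₊ : ℝ) * (⌊X / t⌋₊ : ℝ) ≤ t * (X / t) :=
              mul_le_mul hx1 hy1 (by positivity) (by linarith)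
          _ = X := by field_simp
      have s4 : Real.sqrt ((⌊t⌋₊ : ℝ) * (⌊X / t⌋₊ : ℝ)) ≤ Real.sqrt X := Real.sqrt_le_sqrt hxy
      have s5 : Real.sqrt ⌊t⌋₊ ≤ Real.sqrt X := Real.sqrt_le_sqrt hx3
      have s6 : Real.sqrt ⌊X / t⌋₊ ≤ Real.sqrt X := Real.sqrt_le_sqrt hy3
      have s1 : Real.sqrt (∑ b ∈ Icc 1 ⌊t⌋₊, RD D b ^ 2) ≤ Real.sqrt (X / D) := by
        apply Real.sqrt_le_sqrt
        refine (sum_RD D ⌊t⌋₊ hD).trans ?_
        exact div_le_div_of_nonneg_right hx3 hD0.le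
      have s2 : Real.sqrt (∑ c ∈ Icc 1 ⌊X / t⌋₊, δ c ^ 2) ≤ 1 := by
        rw [← Real.sqrt_one]
        apply Real.sqrt_le_sqrt
        calc ∑ c ∈ Icc 1 ⌊X / t⌋₊, δ c ^ 2 = ∑ c ∈ Icc 1 ⌊X / t⌋₊, if c = 1 then (1:ℝ) else 0 := by
              apply sum_congr rfl
              intro c _
              rw [hδ]
              simp
          _ ≤ 1 := by
              rw [sum_ite_eq']
              split_ifs <;> norm_num
      have hlogF : Real.log F ≤ Real.log X := by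
        apply log_natCast_le _ X hX
        refine hFX.trans ?_
        rw [Real.sqrt_le_left (by linarith)]
        nlinarith
      have hF0' : (0:ℝ) ≤ Real.log F := Real.log_natCast_nonneg F
      have s7 : Real.sqrt ((⌊t⌋₊ : ℝ) * (⌊X / t⌋₊ : ℝ)) / ((1 : ℕ) : ℝ) + (Real.sqrt ⌊t⌋₊ + Real.sqrt ⌊X / t⌋₊) + F ≤
          4 * Real.sqrt X := by
        push_cast
        rw [div_one]
        linarith
      have s8 : Real.sqrt (∑ b ∈ Icc 1 ⌊t⌋₊, RD D b ^ 2) * Real.sqrt (∑ c ∈ Icc 1 ⌊X / t⌋₊, δ c ^ 2) ≤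
          Real.sqrt (X / D) * 1 := mul_le_mul s1 s2 (Real.sqrt_nonneg _) (Real.sqrt_nonneg _)
      rw [mul_one] at s8
      gcongr)
  refine le_trans (le_of_eq ?_) h1
  apply sum_congr rfl
  intro f _
  congr 1
  exact sum_congr rfl (h0 f)

end Pool.Agent.Y868.TE
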