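import Pool.Agent.Y868.TE.L3

/-! The mean value over primitive characters for the Liouville function. -/

set_option autoImplicit false

open Finset Filter Topology

namespace Pool.Agent.Y868.TE

open Pool.Agent.Helper112 Pool.Agent.Helper112.BLB Pool.Agent.H398R2.BV

lemma inv_sq_sum (D : ℕ) : ∑ d ∈ Icc 1 D, ((d:ℝ) ^ 2)⁻¹ ≤ 2 := by
  rcases Nat.eq_zero_or_pos D with h | h
  · subst h; simp
  · have h1 := sum_Ioc_inv_sq_le_sub (α := ℝ) (k := 1) (n := D) one_ne_zero h
    have h2 : ∑ d ∈ Icc 1 D, ((d:ℝ) ^ 2)⁻¹ = 1 + ∑ d ∈ Ioc 1 D, ((d:ℝ) ^ 2)⁻¹ := by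
      have h3 : Icc 1 D = insert 1 (Ioc 1 D) := by
        ext n; simp only [mem_Icc, mem_insert, mem_Ioc]; omega
      rw [h3, sum_insert (by simp)]
      simp
    have h3 : (0:ℝ) ≤ (D:ℝ)⁻¹ := by positivity
    rw [h2]
    push_cast at h1
    linarith

theorem bv_lio (U : ℕ) : ∃ (B : ℕ) (X0 : ℝ), ∀ X : ℝ, X0 ≤ X → ∀ F : ℕ,
    (F : ℝ) ≤ Real.sqrt X / Real.log X ^ B →
    ∑ f ∈ Icc 1 F, (1 / (Nat.totient f : ℝ)) * ∑ ψ ∈ Prim f, ‖TL X f ψ lio‖ ≤
      X / Real.log X ^ U := by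
  obtain ⟨B1, X1, h1⟩ := bv_mu (U + 2)
  set B := B1 + 2 * U + 7 with hB
  have hlog : Tendsto Real.log atTop atTop := Real.tendsto_log_atTop
  have hsq : Tendsto Real.sqrt atTop atTop := Real.tendsto_sqrt_atTop
  have ev : ∀ᶠ X : ℝ in atTop, ∀ F : ℕ, (F : ℝ) ≤ Real.sqrt X / Real.log X ^ B →
      ∑ f ∈ Icc 1 F, (1 / (Nat.totient f : ℝ)) * ∑ ψ ∈ Prim f, ‖TL X f ψ lio‖ ≤
      X / Real.log X ^ U := by
    filter_upwards [hsq.eventually_ge_atTop X1, eventually_ge_atTop (4:ℝ),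
      hlog.eventually_ge_atTop (2 ^ (U + 4) + 200), ev_log 4 (4 * U + 12) (1 / 2) (by norm_num)] with X e1 e2 e3 e4 F hF
    have hX0 : 0 < X := by linarith
    have hX1 : 1 ≤ X := by linarith
    set L := Real.log X with hL
    have h2U : (0:ℝ) < 2 ^ (U + 4) := by positivity
    have hL200 : 200 ≤ L := by linarith
    have hL0 : 0 < L := by linarith
    have hL1 : 1 ≤ L := by linarith
    have hsX : 0 < Real.sqrt X := Real.sqrt_pos.mpr hX0
    have hss : Real.sqrt X * Real.sqrt X = X := Real.mul_self_sqrt hX0.le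
    have hXU : 0 < X / L ^ U := by positivity
    rw [← Real.sqrt_eq_rpow] at e4
    rcases Nat.eq_zero_or_pos F with hF0 | hF0
    · subst hF0
      rw [Icc_eq_empty (by norm_num), sum_empty]
      exact hXU.le
    set D := ⌈L ^ (2 * U + 6)⌉₊ with hD
    have hLD : 1 ≤ L ^ (2 * U + 6) := one_le_pow₀ hL1
    have hD1 : L ^ (2 * U + 6) ≤ D := Nat.le_ceil _
    have hD2 : (D : ℝ) ≤ 2 * L ^ (2 * U + 6) := by
      have := Nat.ceil_lt_add_one (show 0 ≤ L ^ (2 * U + 6) by positivity)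
      linarith
    have hD3 : 1 ≤ D := by
      have : (1:ℝ) ≤ D := hLD.trans hD1
      exact_mod_cast this
    have hD0 : (0:ℝ) < D := by exact_mod_cast hD3
    have hDX : (D:ℝ) ^ 2 ≤ Real.sqrt X := by
      calc (D:ℝ) ^ 2 ≤ (2 * L ^ (2 * U + 6)) ^ 2 := pow_le_pow_left₀ hD0.le hD2 2
        _ = 4 * L ^ (4 * U + 12) := by
            rw [mul_pow, ← pow_mul]
            norm_num
            ring_nf
        _ ≤ Real.sqrt X := e4
    -- splitting
    have hsplit : ∑ f ∈ Icc 1 F, (1 / (Nat.totient f : ℝ)) * ∑ ψ ∈ Prim f, ‖TL X f ψ lio‖ ≤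
        ∑ d ∈ Icc 1 D, ∑ f ∈ Icc 1 F, (1 / (Nat.totient f : ℝ)) * ∑ ψ ∈ Prim f, ‖TL (X / (d ^ 2 : ℕ)) f ψ mu‖ +
        ∑ f ∈ Icc 1 F, (1 / (Nat.totient f : ℝ)) * ∑ ψ ∈ Prim f, ‖TL X f ψ (RD D)‖ := by
      rw [sum_comm, ← sum_add_distrib]
      apply sum_le_sum
      intro f _
      rw [← mul_sum, ← mul_add]
      apply mul_le_mul_of_nonneg_left _ (by positivity)
      rw [sum_comm, ← sum_add_distrib]
      exact sum_le_sum fun ψ _ => TL_lio X hX0.le f ψ D
    refine hsplit.trans ?_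
    have hFX : (F:ℝ) ≤ Real.sqrt X := hF.trans (div_le_self hsX.le (one_le_pow₀ hL1))
    have hlarge := large_sq X hX1 D F hD3 hF0 hFX
    have hlarge2 : 12 * (1 + L) * (4 * Real.sqrt X) * (Real.sqrt (X / D)) * L ≤ (1 / 2) * (X / L ^ U) := by
      have hsD : Real.sqrt (X / D) ≤ Real.sqrt X / L ^ (U + 3) := by
        rw [Real.sqrt_div hX0.le]
        apply div_le_div_of_nonneg_left hsX.le (by positivity)
        apply Real.le_sqrt_of_sq_le
        rw [← pow_mul]
        refine le_trans (le_of_eq ?_) hD1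
        congr 1
        ring
      calc 12 * (1 + L) * (4 * Real.sqrt X) * (Real.sqrt (X / D)) * L ≤
          12 * (2 * L) * (4 * Real.sqrt X) * (Real.sqrt X / L ^ (U + 3)) * L := by
            gcongr
            linarith
        _ = 96 * (Real.sqrt X * Real.sqrt X) * (L ^ 2 / L ^ (U + 3)) := by
            field_simp
            ring
        _ = 96 * (X / L ^ U) * (1 / L) := by
            rw [hss]
            have : L ^ (U + 3) = L ^ U * L ^ 3 := pow_add _ _ _
            rw [this]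
            field_simp
        _ ≤ 96 * (X / L ^ U) * (1 / 200) := by gcongr
        _ ≤ _ := by linarith
    have hsm : ∀ d ∈ Icc 1 D, ∑ f ∈ Icc 1 F, (1 / (Nat.totient f : ℝ)) * ∑ ψ ∈ Prim f, ‖TL (X / (d ^ 2 : ℕ)) f ψ mu‖ ≤
        (X * 2 ^ (U + 2) / L ^ (U + 2)) * ((d:ℝ) ^ 2)⁻¹ := by
      intro d hd
      rw [mem_Icc] at hd
      have hd1 : (1:ℝ) ≤ d := by exact_mod_cast hd.1
      have hd0 : (0:ℝ) < d := by linarith
      have hdD : (d:ℝ) ≤ D := by exact_mod_cast hd.2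
      have hd2 : (d:ℝ) ^ 2 ≤ Real.sqrt X := (pow_le_pow_left₀ hd0.le hdD 2).trans hDX
      have hd20 : (0:ℝ) < (d:ℝ) ^ 2 := by positivity
      have hd21 : (1:ℝ) ≤ (d:ℝ) ^ 2 := one_le_pow₀ hd1
      set Xd : ℝ := X / (d ^ 2 : ℕ) with hXd
      have hXd' : Xd = X / (d:ℝ) ^ 2 := by rw [hXd]; push_cast; rfl
      have hXds : Real.sqrt X ≤ Xd := by
        rw [hXd', le_div_iff₀ hd20]
        calc Real.sqrt X * (d:ℝ) ^ 2 ≤ Real.sqrt X * Real.sqrt X := by gcongr
          _ = X := hss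
      have hXdX : Xd ≤ X := by
        rw [hXd']; exact div_le_self hX0.le hd21
      have hXd0 : 0 < Xd := lt_of_lt_of_le hsX hXds
      have hlog1 : Real.log Xd ≤ L := Real.log_le_log hXd0 hXdX
      have hlog2 : L / 2 ≤ Real.log Xd := by
        have h3 := Real.log_le_log hsX hXds
        rw [Real.log_sqrt hX0.le] at h3
        exact h3
      have hlog0 : 0 < Real.log Xd := by linarith
      have hFd : (F:ℝ) ≤ Real.sqrt Xd / Real.log Xd ^ B1 := by
        refine hF.trans ?_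
        have h3 : Real.sqrt Xd = Real.sqrt X / d := by
          rw [hXd', Real.sqrt_div hX0.le, Real.sqrt_sq hd0.le]
        rw [h3, div_div]
        apply div_le_div_of_nonneg_left hsX.le (by positivity)
        calc (d:ℝ) * Real.log Xd ^ B1 ≤ (L ^ (2 * U + 7)) * L ^ B1 := by
              apply mul_le_mul _ (pow_le_pow_left₀ hlog0.le hlog1 _) (by positivity) (by positivity)
              calc (d:ℝ) ≤ 2 * L ^ (2 * U + 6) := hdD.trans hD2
                _ ≤ L * L ^ (2 * U + 6) := by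
                    apply mul_le_mul_of_nonneg_right _ (by positivity)
                    linarith
                _ = L ^ (2 * U + 7) := by ring
          _ = L ^ B := by rw [← pow_add]; congr 1; omega
      have h4 := h1 Xd (e1.trans hXds) F hFd
      refine h4.trans ?_
      calc Xd / Real.log Xd ^ (U + 2) ≤ Xd / (L / 2) ^ (U + 2) := by
            apply div_le_div_of_nonneg_left hXd0.le (by positivity)
            exact pow_le_pow_left₀ (by positivity) hlog2 _
        _ = _ := by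
            rw [hXd', div_pow]
            field_simp
    have hsum := sum_le_sum hsm
    rw [← mul_sum] at hsum
    have h5 : (X * 2 ^ (U + 2) / L ^ (U + 2)) * ∑ d ∈ Icc 1 D, ((d:ℝ) ^ 2)⁻¹ ≤ (1 / 2) * (X / L ^ U) := by
      calc (X * 2 ^ (U + 2) / L ^ (U + 2)) * ∑ d ∈ Icc 1 D, ((d:ℝ) ^ 2)⁻¹ ≤
          (X * 2 ^ (U + 2) / L ^ (U + 2)) * 2 := mul_le_mul_of_nonneg_left (inv_sq_sum D) (by positivity)
        _ = (2 ^ (U + 3) / L ^ 2) * (X / L ^ U) := by
            have : L ^ (U + 2) = L ^ U * L ^ 2 := pow_add _ _ _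
            rw [this]
            have h6 : (2:ℝ) ^ (U + 3) = 2 ^ (U + 2) * 2 := by ring
            rw [h6]
            field_simp
        _ ≤ (1 / 2) * (X / L ^ U) := by
            apply mul_le_mul_of_nonneg_right _ hXU.le
            rw [div_le_iff₀ (by positivity)]
            have h6 : (2:ℝ) ^ (U + 4) = 2 ^ (U + 3) * 2 := by ring
            have h7 : L ≤ L ^ 2 := by nlinarith
            linarith
    linarith
  rw [eventually_atTop] at ev
  obtain ⟨X0, hX0⟩ := ev
  exact ⟨B, X0, hX0⟩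

end Pool.Agent.Y868.TE
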