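import Pool.Agent.Y868.TE.L4
import Pool.Agent.H398R2.BA2

/-! Passage to residue classes: one modulus. -/

set_option autoImplicit false

open Finset Filter Topology

namespace Pool.Agent.Y868.TE

open Pool.Agent.Helper112 Pool.Agent.Helper112.BLB Pool.Agent.H398R2.BV

/-- the logarithmically smoothed sum of the Liouville function over a class -/
noncomputable def TAP (X : ℝ) (k a : ℕ) : ℝ :=
  ∑ n ∈ (Icc 1 ⌊X⌋₊).filter (fun n => n ≡ a [MOD k]), lio n * Real.log (X / n)

lemma mu_div_sum (n : ℕ) (hn : n ≠ 0) : ∑ d ∈ n.divisors, mu d = if n = 1 then 1 else 0 := by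
  have h : ∑ d ∈ n.divisors, (ArithmeticFunction.moebius d : ℤ) = if n = 1 then 1 else 0 := by
    have h1 := ArithmeticFunction.coe_mul_zeta_apply (f := ArithmeticFunction.moebius) (x := n)
    rw [ArithmeticFunction.moebius_mul_coe_zeta, ArithmeticFunction.one_apply] at h1
    exact h1.symm
  unfold mu
  rw [← Int.cast_sum, h]
  split_ifs <;> simp

lemma cop_sum (n k : ℕ) (hn : 1 ≤ n) (hk : 1 ≤ k) :
    (if n.Coprime k then lio n else 0) = ∑ d ∈ k.divisors, (if d ∣ n then (mu d * lio d) * lio (n / d) else 0) := by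
  have h1 : ∀ d ∈ k.divisors, (if d ∣ n then (mu d * lio d) * lio (n / d) else 0) = lio n * (if d ∣ n then mu d else 0) := by
    intro d _
    split_ifs with h
    · have : lio n = lio d * lio (n / d) := by
        rw [← lio_mul, Nat.mul_div_cancel' h]
      rw [this]; ring
    · simp
  rw [sum_congr rfl h1, ← mul_sum, ← sum_filter]
  have h2 : k.divisors.filter (fun d => d ∣ n) = (n.gcd k).divisors := by
    ext d
    rw [mem_filter, Nat.mem_divisors, Nat.mem_divisors, Nat.dvd_gcd_iff]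
    constructor
    · rintro ⟨⟨h1, _⟩, h3⟩
      exact ⟨⟨h3, h1⟩, (Nat.gcd_pos_of_pos_left _ hn).ne'⟩
    · rintro ⟨⟨h1, h2⟩, _⟩
      exact ⟨⟨h2, by omega⟩, h1⟩
  rw [h2, mu_div_sum _ (Nat.gcd_pos_of_pos_left _ hn).ne']
  unfold Nat.Coprime
  split_ifs <;> simp

/-- an imprimitive character -/
lemma TL_imp (X : ℝ) (hX : 0 ≤ X) (k f : ℕ) (hk : 1 ≤ k) (h : f ∣ k) (ψ : DirichletCharacter ℂ f) :
    ‖TL X k (DirichletCharacter.changeLevel h ψ) lio‖ ≤
      ∑ d ∈ k.divisors.filter (fun d => d.Coprime f), ‖TL (X / d) f ψ lio‖ := by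
  have hf : NeZero k := ⟨by omega⟩
  have e : TL X k (DirichletCharacter.changeLevel h ψ) lio = TL X f ψ (fun n => if n.Coprime k then lio n else 0) := by
    unfold TL
    apply sum_congr rfl
    intro n _
    by_cases hn : n.Coprime k
    · have h1 := DirichletCharacter.changeLevel_eq_cast_of_dvd' ψ h (a := (n : ℤ))
        (by exact_mod_cast Nat.isCoprime_iff_coprime.mpr hn)
      push_cast at h1
      beta_reduce
      rw [h1, if_pos hn]
    · beta_reduce
      rw [MulChar.map_nonunit _ (fun hu => hn ((ZMod.isUnit_iff_coprime n _).mp hu)), if_neg hn]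
      push_cast
      ring
  rw [e, TL_congr X f ψ _ _ (fun n hn => cop_sum n k hn hk), TL_sum]
  refine (norm_sum_le _ _).trans ?_
  rw [sum_filter]
  apply sum_le_sum
  intro d hd
  have hd1 : 1 ≤ d := Nat.pos_of_mem_divisors hd
  rw [TL_dil X hX f ψ d hd1 (fun n => (mu d * lio d) * lio n)]
  have h2 : TL (X / d) f ψ (fun n => (mu d * lio d) * lio n) = ((mu d * lio d : ℝ) : ℂ) * TL (X / d) f ψ lio := by
    unfold TL
    rw [mul_sum]
    apply sum_congr rfl
    intro n _
    push_cast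
    ring
  rw [h2]
  split_ifs with hc
  · rw [norm_mul, norm_mul, Complex.norm_real, Real.norm_eq_abs, abs_mul]
    have a1 := ψ.norm_le_one (d : ZMod f)
    have a2 : |mu d| * |lio d| ≤ 1 := mul_le_one₀ (mu_abs d) (abs_nonneg _) (lio_abs d)
    calc ‖ψ (d : ZMod f)‖ * (|mu d| * |lio d| * ‖TL (X / d) f ψ lio‖) ≤ 1 * (1 * ‖TL (X / d) f ψ lio‖) := by
          gcongr
      _ = _ := by ring
  · rw [MulChar.map_nonunit _ (fun hu => hc ((ZMod.isUnit_iff_coprime d _).mp hu)), zero_mul, norm_zero]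

open Classical in
theorem TAP_char (X : ℝ) (m a : ℕ) [NeZero m] (ha : a.Coprime m) :
    |TAP X m a| ≤ (1 / (Nat.totient m : ℝ)) *
      (∑ χ ∈ (univ : Finset (DirichletCharacter ℂ m)).filter (fun χ => χ ≠ 1),
        ‖TL X m χ lio‖ + ‖TL X m 1 lio‖) := by
  have key : ((TAP X m a : ℝ) : ℂ) =
      (1 / (Nat.totient m : ℂ)) *
      ∑ χ ∈ (univ : Finset (DirichletCharacter ℂ m)).filter (fun χ => χ ≠ 1),
        χ ((a : ZMod m)⁻¹) * TL X m χ lio + (1 / (Nat.totient m : ℂ)) * TL X m 1 lio := by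
    have h1 : TAP X m a =
        ∑ n ∈ Icc 1 ⌊X⌋₊, lio n * Real.log (X / n) *
          ((if n ≡ a [MOD m] then (1 : ℝ) else 0) -
            (if n.Coprime m then (1 : ℝ) / (Nat.totient m : ℝ) else 0)) +
        ∑ n ∈ Icc 1 ⌊X⌋₊, (1 / (Nat.totient m : ℝ)) * (lio n * (if n.Coprime m then 1 else 0) * Real.log (X / n)) := by
      unfold TAP
      rw [sum_filter, ← sum_add_distrib]
      apply sum_congr rfl
      intro n _
      split_ifs <;> ring
    rw [h1, Complex.ofReal_add, Complex.ofReal_sum, Complex.ofReal_sum, mul_sum]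
    congr 1
    · have h2 : ∀ n ∈ Icc 1 ⌊X⌋₊, ((lio n * Real.log (X / n) *
            ((if n ≡ a [MOD m] then (1 : ℝ) else 0) -
              (if n.Coprime m then (1 : ℝ) / (Nat.totient m : ℝ) else 0)) : ℝ) : ℂ) =
          ∑ χ ∈ (univ : Finset (DirichletCharacter ℂ m)).filter (fun χ => χ ≠ 1),
            (1 / (Nat.totient m : ℂ)) * (χ ((a : ZMod m)⁻¹) *
              (((lio n : ℝ) : ℂ) * χ (n : ZMod m) *
                ((Real.log (X / n) : ℝ) : ℂ))) := by
        intro n _
        rw [Complex.ofReal_mul, bracket m a ha n, mul_sum, mul_sum]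
        apply sum_congr rfl
        intro χ _
        push_cast
        ring
      rw [sum_congr rfl h2, sum_comm]
      apply sum_congr rfl
      intro χ _
      unfold TL
      rw [mul_sum, mul_sum]
    · unfold TL
      rw [mul_sum]
      apply sum_congr rfl
      intro n _
      by_cases hn : n.Coprime m
      · rw [if_pos hn, MulChar.one_apply ((ZMod.isUnit_iff_coprime n _).mpr hn)]
        push_cast
        ring
      · rw [if_neg hn, MulChar.map_nonunit _ (fun hu => hn ((ZMod.isUnit_iff_coprime n _).mp hu))]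
        push_cast
        ring
  rw [← Real.norm_eq_abs, ← Complex.norm_real, key]
  have h1 : ‖(1 / (Nat.totient m : ℂ))‖ = 1 / (Nat.totient m : ℝ) := by
    rw [norm_div, norm_one, Complex.norm_natCast]
  refine (norm_add_le _ _).trans ?_
  rw [norm_mul, norm_mul, h1, ← mul_add]
  apply mul_le_mul_of_nonneg_left _ (by positivity)
  apply add_le_add_left
  refine (norm_sum_le _ _).trans (sum_le_sum ?_)
  intro χ _
  rw [norm_mul]
  have : ‖χ ((a : ZMod m)⁻¹)‖ ≤ 1 := χ.norm_le_one _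
  calc _ ≤ 1 * ‖TL X m χ lio‖ :=
        mul_le_mul_of_nonneg_right this (norm_nonneg _)
    _ = _ := one_mul _

/-- one modulus -/
theorem TAP_le (X : ℝ) (hX : 0 ≤ X) (k a : ℕ) (hk : 1 ≤ k) (ha : a.Coprime k) :
    |TAP X k a| ≤ (1 / (Nat.totient k : ℝ)) * ∑ f ∈ k.divisors,
      ∑ d ∈ k.divisors.filter (fun d => d.Coprime f), ∑ ψ ∈ Prim f, ‖TL (X / d) f ψ lio‖ := by
  classical
  have : NeZero k := ⟨by omega⟩
  refine (TAP_char X k a ha).trans ?_
  apply mul_le_mul_of_nonneg_left _ (by positivity)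
  have h2 := step2 k (fun χ => ‖TL X k χ lio‖) (fun _ => norm_nonneg _)
    (fun f ψ => ∑ d ∈ k.divisors.filter (fun d => d.Coprime f), ‖TL (X / d) f ψ lio‖)
    (fun f h ψ => TL_imp X hX k f hk h ψ)
  have h3 : ‖TL X k 1 lio‖ ≤ ∑ ψ ∈ Prim 1, ∑ d ∈ k.divisors.filter (fun d => d.Coprime 1), ‖TL (X / d) 1 ψ lio‖ := by
    have h4 := TL_imp X hX k 1 hk (one_dvd k) 1
    rw [DirichletCharacter.changeLevel_one] at h4
    refine h4.trans ?_
    have h5 : (1 : DirichletCharacter ℂ 1) ∈ Prim 1 := by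
      unfold Prim
      rw [mem_filter]
      refine ⟨mem_univ _, ?_⟩
      rw [DirichletCharacter.isPrimitive_def, DirichletCharacter.conductor_one]
    exact single_le_sum (f := fun ψ : DirichletCharacter ℂ 1 => ∑ d ∈ k.divisors.filter (fun d => d.Coprime 1), ‖TL (X / d) 1 ψ lio‖)
      (fun _ _ => sum_nonneg fun _ _ => norm_nonneg _) h5
  have h6 : ∑ f ∈ k.divisors, ∑ d ∈ k.divisors.filter (fun d => d.Coprime f), ∑ ψ ∈ Prim f, ‖TL (X / d) f ψ lio‖ =
      ∑ f ∈ k.divisors.filter (fun f => f ≠ 1), ∑ ψ ∈ Prim f, ∑ d ∈ k.divisors.filter (fun d => d.Coprime f), ‖TL (X / d) f ψ lio‖ +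
      ∑ ψ ∈ Prim 1, ∑ d ∈ k.divisors.filter (fun d => d.Coprime 1), ‖TL (X / d) 1 ψ lio‖ := by
    have h7 : ∀ f ∈ k.divisors, ∑ d ∈ k.divisors.filter (fun d => d.Coprime f), ∑ ψ ∈ Prim f, ‖TL (X / d) f ψ lio‖ =
        ∑ ψ ∈ Prim f, ∑ d ∈ k.divisors.filter (fun d => d.Coprime f), ‖TL (X / d) f ψ lio‖ := fun f _ => sum_comm
    rw [sum_congr rfl h7, ← sum_filter_add_sum_filter_not k.divisors (fun f => f ≠ 1)]
    congr 1
    have h8 : k.divisors.filter (fun f => ¬ f ≠ 1) = {1} := by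
      ext f
      rw [mem_filter, Nat.mem_divisors, mem_singleton, not_not]
      constructor
      · exact fun h => h.2
      · rintro rfl
        exact ⟨⟨one_dvd k, by omega⟩, rfl⟩
    rw [h8, sum_singleton]
  rw [h6]
  exact add_le_add h2 h3

end Pool.Agent.Y868.TE
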