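import Pool.Agent.Y868.TE.L5

/-! Passage to residue classes: sum over the moduli. -/

set_option autoImplicit false

open Finset Filter Topology

namespace Pool.Agent.Y868.TE

open Pool.Agent.Helper112 Pool.Agent.Helper112.BLB Pool.Agent.H398R2.BV

lemma inv_tot_le (j : ℕ) (hj : 1 ≤ j) : 1 / (Nat.totient j : ℝ) ≤ (j.divisors.card : ℝ) / j := by
  have hφ : (0:ℝ) < Nat.totient j := by exact_mod_cast Nat.totient_pos.mpr (by omega)
  have hj0 : (0:ℝ) < j := by exact_mod_cast hj
  rw [div_le_div_iff₀ hφ hj0, one_mul]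
  have h1 : j ≤ j.divisors.card * Nat.totient j := by
    calc j = ∑ d ∈ j.divisors, Nat.totient d := (Nat.sum_totient j).symm
      _ ≤ ∑ _d ∈ j.divisors, Nat.totient j := by
          apply sum_le_sum
          intro d hd
          exact Nat.le_of_dvd (Nat.totient_pos.mpr (by omega)) (Nat.totient_dvd_of_dvd (Nat.dvd_of_mem_divisors hd))
      _ = _ := by rw [sum_const, smul_eq_mul]
  exact_mod_cast h1

lemma tot_harm (K : ℕ) : ∑ j ∈ Icc 1 K, 1 / (Nat.totient j : ℝ) ≤ (1 + Real.log K) ^ 2 := by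
  refine le_trans (sum_le_sum fun j hj => inv_tot_le j (mem_Icc.1 hj).1) (sum_card_div_div K)

lemma tot_sum (m K : ℕ) (hm : 1 ≤ m) :
    ∑ k ∈ (Icc 1 K).filter (fun k => m ∣ k), 1 / (Nat.totient k : ℝ) ≤
      (1 / (Nat.totient m : ℝ)) * ∑ j ∈ Icc 1 K, 1 / (Nat.totient j : ℝ) := by
  have hφ : (0:ℝ) < Nat.totient m := by exact_mod_cast Nat.totient_pos.mpr (by omega)
  have h1 : (Icc 1 K).filter (fun k => m ∣ k) ⊆ (Icc 1 K).image (fun j => m * j) := by
    intro k hk
    rw [mem_filter, mem_Icc] at hk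
    obtain ⟨⟨h1, h2⟩, j, rfl⟩ := hk
    rw [mem_image]
    refine ⟨j, ?_, rfl⟩
    rw [mem_Icc]
    constructor
    · by_contra h
      have : j = 0 := by omega
      subst this
      simp at h1
    · exact (Nat.le_mul_of_pos_left j hm).trans h2
  refine (sum_le_sum_of_subset_of_nonneg h1 (fun _ _ _ => by positivity)).trans ?_
  rw [sum_image (by intro a _ b _ h; exact Nat.eq_of_mul_eq_mul_left (by omega) h), mul_sum]
  apply sum_le_sum
  intro j hj
  rw [mem_Icc] at hj
  have hφj : (0:ℝ) < Nat.totient j := by exact_mod_cast Nat.totient_pos.mpr (by omega)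
  rw [one_div_mul_one_div]
  apply one_div_le_one_div_of_le (by positivity)
  exact_mod_cast Nat.totient_super_multiplicative m j

/-- exchange of the sums -/
lemma exch (K : ℕ) (V : ℕ → ℕ → ℝ) (hV : ∀ d f, 0 ≤ V d f) :
    ∑ k ∈ Icc 1 K, (1 / (Nat.totient k : ℝ)) * ∑ f ∈ k.divisors, ∑ d ∈ k.divisors.filter (fun d => d.Coprime f), V d f ≤
      (∑ j ∈ Icc 1 K, 1 / (Nat.totient j : ℝ)) * ∑ d ∈ Icc 1 K, (1 / (Nat.totient d : ℝ)) *
        ∑ f ∈ Icc 1 (K / d), (1 / (Nat.totient f : ℝ)) * V d f := by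
  set H := ∑ j ∈ Icc 1 K, 1 / (Nat.totient j : ℝ) with hH
  have hH0 : 0 ≤ H := sum_nonneg fun _ _ => by positivity
  have h1 : ∀ k ∈ Icc 1 K, (1 / (Nat.totient k : ℝ)) * ∑ f ∈ k.divisors, ∑ d ∈ k.divisors.filter (fun d => d.Coprime f), V d f ≤
      ∑ d ∈ Icc 1 K, ∑ f ∈ Icc 1 (K / d), (if d * f ∣ k ∧ d.Coprime f then (1 / (Nat.totient k : ℝ)) * V d f else 0) := by
    intro k hk
    rw [mem_Icc] at hk
    have h2 : ∑ f ∈ k.divisors, ∑ d ∈ k.divisors.filter (fun d => d.Coprime f), V d f =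
        ∑ d ∈ k.divisors, ∑ f ∈ k.divisors.filter (fun f => d.Coprime f), V d f := by
      apply sum_comm'
      intro a b
      rw [mem_filter, mem_filter]
      tauto
    rw [h2, mul_sum]
    have h3 : k.divisors ⊆ Icc 1 K := by
      intro d hd
      rw [mem_Icc]
      exact ⟨Nat.pos_of_mem_divisors hd, (Nat.divisor_le hd).trans hk.2⟩
    refine le_trans ?_ (sum_le_sum_of_subset_of_nonneg h3 (fun d _ _ => sum_nonneg fun f _ => by
      split_ifs
      · exact mul_nonneg (by positivity) (hV d f)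
      · exact le_rfl))
    apply sum_le_sum
    intro d hd
    have hd1 : 1 ≤ d := Nat.pos_of_mem_divisors hd
    rw [mul_sum, ← sum_filter]
    apply sum_le_sum_of_subset_of_nonneg
    · intro f hf
      rw [mem_filter] at hf
      have hf1 : 1 ≤ f := Nat.pos_of_mem_divisors hf.1
      have hdf : d * f ∣ k := hf.2.mul_dvd_of_dvd_of_dvd (Nat.dvd_of_mem_divisors hd) (Nat.dvd_of_mem_divisors hf.1)
      rw [mem_filter, mem_Icc]
      refine ⟨⟨hf1, ?_⟩, hdf, hf.2⟩
      rw [Nat.le_div_iff_mul_le hd1, mul_comm]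
      exact (Nat.le_of_dvd hk.1 hdf).trans hk.2
    · intro f _ _
      exact mul_nonneg (by positivity) (hV d f)
  refine (sum_le_sum h1).trans ?_
  rw [sum_comm, mul_sum]
  apply sum_le_sum
  intro d hd
  rw [mem_Icc] at hd
  rw [sum_comm]
  have h4 : ∀ f ∈ Icc 1 (K / d), ∑ k ∈ Icc 1 K, (if d * f ∣ k ∧ d.Coprime f then (1 / (Nat.totient k : ℝ)) * V d f else 0) ≤
      H * ((1 / (Nat.totient d : ℝ)) * ((1 / (Nat.totient f : ℝ)) * V d f)) := by
    intro f hf
    rw [mem_Icc] at hf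
    by_cases hc : d.Coprime f
    · have h5 : ∑ k ∈ Icc 1 K, (if d * f ∣ k ∧ d.Coprime f then (1 / (Nat.totient k : ℝ)) * V d f else 0) =
          (∑ k ∈ (Icc 1 K).filter (fun k => d * f ∣ k), 1 / (Nat.totient k : ℝ)) * V d f := by
        rw [sum_filter, sum_mul]
        apply sum_congr rfl
        intro k _
        by_cases h : d * f ∣ k
        · rw [if_pos ⟨h, hc⟩, if_pos h]
        · rw [if_neg (fun h' => h h'.1), if_neg h, zero_mul]
      rw [h5]
      have h6 := tot_sum (d * f) K (Nat.mul_pos hd.1 hf.1)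
      calc (∑ k ∈ (Icc 1 K).filter (fun k => d * f ∣ k), 1 / (Nat.totient k : ℝ)) * V d f ≤
          ((1 / (Nat.totient (d * f) : ℝ)) * H) * V d f := mul_le_mul_of_nonneg_right h6 (hV d f)
        _ = _ := by
            rw [Nat.totient_mul hc]
            push_cast
            rw [← one_div_mul_one_div]
            ring
    · rw [sum_eq_zero]
      · have := hV d f
        positivity
      · intro k _
        rw [if_neg (fun h' => hc h'.2)]
  refine (sum_le_sum h4).trans (le_of_eq ?_)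
  rw [← mul_sum, ← mul_sum]

theorem bv_TAP (U : ℕ) : ∃ (B : ℕ) (X0 : ℝ), ∀ X : ℝ, X0 ≤ X → ∀ K : ℕ,
    (K : ℝ) ≤ Real.sqrt X / Real.log X ^ B → ∀ a : ℕ → ℕ, (∀ k, 1 ≤ k → (a k).Coprime k) →
    ∑ k ∈ Icc 1 K, |TAP X k (a k)| ≤ X / Real.log X ^ U := by
  obtain ⟨B, X1, h1⟩ := bv_lio (U + 5)
  have hlog : Tendsto Real.log atTop atTop := Real.tendsto_log_atTop
  have hsq : Tendsto Real.sqrt atTop atTop := Real.tendsto_sqrt_atTop
  have ev : ∀ᶠ X : ℝ in atTop, ∀ K : ℕ, (K : ℝ) ≤ Real.sqrt X / Real.log X ^ B → ∀ a : ℕ → ℕ, (∀ k, 1 ≤ k → (a k).Coprime k) →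
      ∑ k ∈ Icc 1 K, |TAP X k (a k)| ≤ X / Real.log X ^ U := by
    filter_upwards [hsq.eventually_ge_atTop X1, eventually_ge_atTop (4:ℝ),
      hlog.eventually_ge_atTop (2 ^ (U + 9))] with X e1 e2 e3 K hK a ha
    have hX0 : 0 < X := by linarith
    have hX1 : 1 ≤ X := by linarith
    set L := Real.log X with hL
    have h2U : (1:ℝ) ≤ 2 ^ (U + 9) := one_le_pow₀ (by norm_num)
    have hL1 : 1 ≤ L := by linarith
    have hL0 : 0 < L := by linarith
    have hsX : 0 < Real.sqrt X := Real.sqrt_pos.mpr hX0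
    have hsX1 : 1 ≤ Real.sqrt X := Real.one_le_sqrt.2 hX1
    have hss : Real.sqrt X * Real.sqrt X = X := Real.mul_self_sqrt hX0.le
    have hXU : 0 < X / L ^ U := by positivity
    have hKX : (K:ℝ) ≤ Real.sqrt X := hK.trans (div_le_self hsX.le (one_le_pow₀ hL1))
    set V : ℕ → ℕ → ℝ := fun d f => ∑ ψ ∈ Prim f, ‖TL (X / d) f ψ lio‖ with hV
    have hV0 : ∀ d f, 0 ≤ V d f := fun d f => sum_nonneg fun _ _ => norm_nonneg _
    have hH := tot_harm K
    set H := ∑ j ∈ Icc 1 K, 1 / (Nat.totient j : ℝ) with hHd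
    have hH0 : 0 ≤ H := sum_nonneg fun _ _ => by positivity
    have hlogK : Real.log K ≤ L := by
      apply log_natCast_le _ X hX1
      refine hKX.trans ?_
      calc Real.sqrt X = Real.sqrt X * 1 := (mul_one _).symm
        _ ≤ Real.sqrt X * Real.sqrt X := by gcongr
        _ = X := hss
    have hH2 : H ≤ 4 * L ^ 2 := by
      refine hH.trans ?_
      have h0 := Real.log_natCast_nonneg K
      calc (1 + Real.log K) ^ 2 ≤ (2 * L) ^ 2 := pow_le_pow_left₀ (by linarith) (by linarith) 2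
        _ = _ := by ring
    have h2 : ∑ k ∈ Icc 1 K, |TAP X k (a k)| ≤ H * ∑ d ∈ Icc 1 K, (1 / (Nat.totient d : ℝ)) *
        ∑ f ∈ Icc 1 (K / d), (1 / (Nat.totient f : ℝ)) * V d f := by
      refine le_trans (sum_le_sum fun k hk => ?_) (exch K V hV0)
      rw [mem_Icc] at hk
      exact TAP_le X hX0.le k (a k) hk.1 (ha k hk.1)
    have h3 : ∀ d ∈ Icc 1 K, (1 / (Nat.totient d : ℝ)) * ∑ f ∈ Icc 1 (K / d), (1 / (Nat.totient f : ℝ)) * V d f ≤
        (1 / (Nat.totient d : ℝ)) * (2 ^ (U + 5) * X / L ^ (U + 5)) := by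
      intro d hd
      rw [mem_Icc] at hd
      apply mul_le_mul_of_nonneg_left _ (by positivity)
      have hd1 : (1:ℝ) ≤ d := by exact_mod_cast hd.1
      have hd0 : (0:ℝ) < d := by linarith
      have hdK : (d:ℝ) ≤ K := by exact_mod_cast hd.2
      have hds : (d:ℝ) ≤ Real.sqrt X := hdK.trans hKX
      set Xd : ℝ := X / d with hXd
      have hXds : Real.sqrt X ≤ Xd := by
        rw [hXd, le_div_iff₀ hd0]
        calc Real.sqrt X * (d:ℝ) ≤ Real.sqrt X * Real.sqrt X := by gcongr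
          _ = X := hss
      have hXdX : Xd ≤ X := div_le_self hX0.le hd1
      have hXd0 : 0 < Xd := lt_of_lt_of_le hsX hXds
      have hlog1 : Real.log Xd ≤ L := Real.log_le_log hXd0 hXdX
      have hlog2 : L / 2 ≤ Real.log Xd := by
        have h3 := Real.log_le_log hsX hXds
        rw [Real.log_sqrt hX0.le] at h3
        exact h3
      have hlog0 : 0 < Real.log Xd := by linarith
      have hKd : ((K / d : ℕ) : ℝ) ≤ Real.sqrt Xd / Real.log Xd ^ B := by
        have h5 : ((K / d : ℕ) : ℝ) ≤ (K:ℝ) / d := Nat.cast_div_le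
        refine h5.trans ?_
        have h6 : (K:ℝ) / d ≤ (Real.sqrt X / L ^ B) / d := div_le_div_of_nonneg_right hK hd0.le
        refine h6.trans ?_
        have h7 : Real.sqrt X / d ≤ Real.sqrt Xd := by
          apply Real.le_sqrt_of_sq_le
          rw [div_pow, Real.sq_sqrt hX0.le, hXd]
          apply div_le_div_of_nonneg_left hX0.le hd0
          nlinarith
        calc Real.sqrt X / L ^ B / d = (Real.sqrt X / d) / L ^ B := by ring
          _ ≤ Real.sqrt Xd / L ^ B := div_le_div_of_nonneg_right h7 (by positivity)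
          _ ≤ Real.sqrt Xd / Real.log Xd ^ B := by
              apply div_le_div_of_nonneg_left (Real.sqrt_nonneg _) (by positivity)
              exact pow_le_pow_left₀ hlog0.le hlog1 _
      refine (h1 Xd (e1.trans hXds) (K / d) hKd).trans ?_
      calc Xd / Real.log Xd ^ (U + 5) ≤ X / (L / 2) ^ (U + 5) := by
            apply div_le_div₀ hX0.le hXdX (by positivity)
            exact pow_le_pow_left₀ (by positivity) hlog2 _
        _ = _ := by
            rw [div_pow]
            field_simp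
    refine h2.trans ?_
    calc H * ∑ d ∈ Icc 1 K, (1 / (Nat.totient d : ℝ)) * ∑ f ∈ Icc 1 (K / d), (1 / (Nat.totient f : ℝ)) * V d f ≤
        H * ∑ d ∈ Icc 1 K, (1 / (Nat.totient d : ℝ)) * (2 ^ (U + 5) * X / L ^ (U + 5)) :=
          mul_le_mul_of_nonneg_left (sum_le_sum h3) hH0
      _ = H * H * (2 ^ (U + 5) * X / L ^ (U + 5)) := by rw [← sum_mul]; ring
      _ ≤ (4 * L ^ 2) * (4 * L ^ 2) * (2 ^ (U + 5) * X / L ^ (U + 5)) := by gcongr
      _ = (2 ^ (U + 9) / L) * (X / L ^ U) := by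
          have h6 : (2:ℝ) ^ (U + 9) = 2 ^ (U + 5) * 16 := by ring
          have h7 : L ^ (U + 5) = L ^ U * L ^ 4 * L := by ring
          rw [h6, h7]
          field_simp
          ring
      _ ≤ 1 * (X / L ^ U) := by
          apply mul_le_mul_of_nonneg_right _ hXU.le
          rw [div_le_one hL0]
          exact e3
      _ = _ := one_mul _
  rw [eventually_atTop] at ev
  obtain ⟨X0, hX0⟩ := ev
  exact ⟨B, X0, hX0⟩

end Pool.Agent.Y868.TE
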