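import Pool.Agent.Y868.TE.L6
import Pool.Agent.Y868.TA.C1

/-! Removal of the logarithmic weight. -/

set_option autoImplicit false

open Finset Filter Topology

namespace Pool.Agent.Y868.TE

open Pool.Agent.Helper112 Pool.Agent.H398R2.BV
open Pool.Agent.H373R2.T7 Pool.Agent.Y868.TA

lemma unsm (Y k a : ℕ) (hY : 1 ≤ Y) (hk : 1 ≤ k) (h : ℝ) (hh : 0 < h) (hh1 : h ≤ 1) :
    h * |cs lio Y k a| ≤ |TAP ((Y:ℝ) * Real.exp h) k a| + |TAP Y k a| + (2 * h * Y / k + 1) * h := by
  have hY0 : (0:ℝ) < Y := by exact_mod_cast hY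
  have he1 : 1 ≤ Real.exp h := Real.one_le_exp hh.le
  set y : ℝ := (Y:ℝ) * Real.exp h with hy
  have hxy : (Y:ℝ) ≤ y := by rw [hy]; nlinarith
  have hy0 : 0 < y := by linarith
  have hYy : Y ≤ ⌊y⌋₊ := Nat.le_floor hxy
  have hfloorY : ⌊(Y:ℝ)⌋₊ = Y := Nat.floor_natCast Y
  have hlogy : ∀ n : ℕ, 0 < n → Real.log (y / n) = Real.log ((Y:ℝ) / n) + h := by
    intro n hn
    have hn' : (0 : ℝ) < n := by exact_mod_cast hn
    have : y / n = ((Y:ℝ) / n) * Real.exp h := by rw [hy]; ring
    rw [this, Real.log_mul (by positivity) (Real.exp_pos h).ne', Real.log_exp]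
  have hexp : Real.exp h - 1 ≤ 2 * h := by
    have := Real.abs_exp_sub_one_le (x := h) (by rw [abs_of_pos hh]; exact hh1)
    rw [abs_of_nonneg (by linarith), abs_of_pos hh] at this
    exact this
  set R : ℝ := ∑ n ∈ (Ioc Y ⌊y⌋₊).filter (fun n => n ≡ a [MOD k]), lio n * Real.log (y / n) with hR
  have hsplit : TAP y k a = TAP Y k a + h * cs lio Y k a + R := by
    unfold TAP cs
    rw [hfloorY]
    have h1 : (Icc 1 ⌊y⌋₊).filter (fun n => n ≡ a [MOD k]) = (Icc 1 Y).filter (fun n => n ≡ a [MOD k]) ∪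
        (Ioc Y ⌊y⌋₊).filter (fun n => n ≡ a [MOD k]) := by
      rw [← filter_union]
      congr 1
      ext n
      simp only [mem_Icc, mem_union, mem_Ioc]
      omega
    rw [h1, sum_union]
    · congr 1
      rw [mul_sum, ← sum_add_distrib]
      apply sum_congr rfl
      intro n hn
      rw [mem_filter, mem_Icc] at hn
      rw [hlogy n (by omega)]
      ring
    · rw [disjoint_left]
      intro n hn1 hn2
      rw [mem_filter, mem_Icc] at hn1
      rw [mem_filter, mem_Ioc] at hn2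
      omega
  have hRb : |R| ≤ (2 * h * Y / k + 1) * h := by
    rw [hR]
    refine (abs_sum_le_sum_abs _ _).trans ?_
    have h2 : ∀ n ∈ (Ioc Y ⌊y⌋₊).filter (fun n => n ≡ a [MOD k]), |lio n * Real.log (y / n)| ≤ h := by
      intro n hn
      rw [mem_filter, mem_Ioc] at hn
      have hn0 : (0:ℝ) < n := by
        have : 0 < n := by omega
        exact_mod_cast this
      have h5 : (Y:ℝ) < n := by exact_mod_cast hn.1.1
      have h6 : (n : ℝ) ≤ y := (Nat.le_floor_iff hy0.le).mp hn.1.2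
      have h7 : 0 ≤ Real.log (y / n) := Real.log_nonneg (by rw [le_div_iff₀ hn0]; linarith)
      have h8 : Real.log (y / n) ≤ h := by
        rw [hlogy n (by omega)]
        have : Real.log ((Y:ℝ) / n) ≤ 0 := Real.log_nonpos (by positivity) (by
          rw [div_le_one hn0]; linarith)
        linarith
      rw [abs_mul, abs_of_nonneg h7]
      calc |lio n| * Real.log (y / n) ≤ 1 * Real.log (y / n) := mul_le_mul_of_nonneg_right (lio_abs n) h7
        _ ≤ h := by linarith
    refine (sum_le_sum h2).trans ?_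
    rw [sum_const, nsmul_eq_mul]
    apply mul_le_mul_of_nonneg_right _ hh.le
    refine (card_class Y ⌊y⌋₊ k a hk hYy).trans ?_
    have hk0 : (0:ℝ) < k := by exact_mod_cast hk
    have h9 : (⌊y⌋₊ : ℝ) - Y ≤ 2 * h * Y := by
      have h10 := Nat.floor_le hy0.le
      have : y - Y = Y * (Real.exp h - 1) := by rw [hy]; ring
      nlinarith
    have := div_le_div_of_nonneg_right h9 hk0.le
    linarith
  have h3 : h * cs lio Y k a = TAP y k a - TAP Y k a - R := by rw [hsplit]; ring
  have h4 : h * |cs lio Y k a| = |h * cs lio Y k a| := by rw [abs_mul, abs_of_pos hh]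
  rw [h4, h3]
  have h5 := abs_sub (TAP y k a - TAP Y k a) R
  have h6 := abs_sub (TAP y k a) (TAP (Y:ℝ) k a)
  linarith

/-- reduced classes -/
theorem bv_red (U : ℕ) : ∃ (B : ℕ) (Y0 : ℕ), ∀ Y : ℕ, Y0 ≤ Y → ∀ K : ℕ,
    (K : ℝ) ≤ Real.sqrt Y / Real.log Y ^ B → ∀ a : ℕ → ℕ, (∀ k, 1 ≤ k → (a k).Coprime k) →
    ∑ k ∈ Icc 1 K, |cs lio Y k (a k)| ≤ Y / Real.log Y ^ U := by
  obtain ⟨B, X1, h1⟩ := bv_TAP (2 * U + 4)
  have hlog : Tendsto Real.log atTop atTop := Real.tendsto_log_atTop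
  have ev : ∀ᶠ X : ℝ in atTop, ∀ Y : ℕ, (Y:ℝ) = X → ∀ K : ℕ, (K : ℝ) ≤ Real.sqrt Y / Real.log Y ^ (B + 1) → ∀ a : ℕ → ℕ, (∀ k, 1 ≤ k → (a k).Coprime k) →
      ∑ k ∈ Icc 1 K, |cs lio Y k (a k)| ≤ Y / Real.log Y ^ U := by
    filter_upwards [eventually_ge_atTop X1, eventually_ge_atTop (4:ℝ),
      hlog.eventually_ge_atTop (2 ^ B + 20), ev_log 4 U (1 / 2) (by norm_num)] with X e1 e2 e3 e4 Y hY K hK a ha
    have hX0 : 0 < X := by linarith
    have hX1 : 1 ≤ X := by linarith
    rw [hY] at hK ⊢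
    set L := Real.log X with hL
    have h2B : (1:ℝ) ≤ 2 ^ B := one_le_pow₀ (by norm_num)
    have hL20 : 20 ≤ L := by linarith
    have hL1 : 1 ≤ L := by linarith
    have hL0 : 0 < L := by linarith
    have hsX : 0 < Real.sqrt X := Real.sqrt_pos.mpr hX0
    have hsX1 : 1 ≤ Real.sqrt X := Real.one_le_sqrt.2 hX1
    have hss : Real.sqrt X * Real.sqrt X = X := Real.mul_self_sqrt hX0.le
    have hXU : 0 < X / L ^ U := by positivity
    have hKX : (K:ℝ) ≤ Real.sqrt X := hK.trans (div_le_self hsX.le (one_le_pow₀ hL1))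
    rw [← Real.sqrt_eq_rpow] at e4
    have hY1 : 1 ≤ Y := by
      have : (1:ℝ) ≤ Y := by rw [hY]; exact hX1
      exact_mod_cast this
    set h : ℝ := 1 / L ^ (U + 2) with hh
    have hLU2 : 1 ≤ L ^ (U + 2) := one_le_pow₀ hL1
    have hh0 : 0 < h := by positivity
    have hh1 : h ≤ 1 := by rw [hh, div_le_one (by positivity)]; exact hLU2
    set y : ℝ := X * Real.exp h with hy
    have he1 : 1 ≤ Real.exp h := Real.one_le_exp hh0.le
    have he3 : Real.exp h ≤ 3 := (Real.exp_le_exp.2 hh1).trans (by have := Real.exp_one_lt_d9; linarith)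
    have hXy : X ≤ y := by rw [hy]; nlinarith
    have hyX : y ≤ 3 * X := by rw [hy]; nlinarith
    have hy0 : 0 < y := by linarith
    have hlogy1 : L ≤ Real.log y := Real.log_le_log hX0 hXy
    have hlogy2 : Real.log y ≤ 2 * L := by
      have h3 : Real.log y = L + h := by
        rw [hy, Real.log_mul hX0.ne' (Real.exp_pos h).ne', Real.log_exp]
      linarith
    have hlogy0 : 0 < Real.log y := by linarith
    have g1 : (K:ℝ) ≤ Real.sqrt X / Real.log X ^ B := by
      refine hK.trans ?_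
      apply div_le_div_of_nonneg_left hsX.le (by positivity)
      exact pow_le_pow_right₀ hL1 (by omega)
    have g2 : (K:ℝ) ≤ Real.sqrt y / Real.log y ^ B := by
      refine hK.trans ?_
      apply div_le_div₀ (Real.sqrt_nonneg _) (Real.sqrt_le_sqrt hXy) (by positivity)
      calc Real.log y ^ B ≤ (2 * L) ^ B := pow_le_pow_left₀ hlogy0.le hlogy2 _
        _ = 2 ^ B * L ^ B := mul_pow _ _ _
        _ ≤ L * L ^ B := by
            apply mul_le_mul_of_nonneg_right _ (by positivity)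
            linarith
        _ = L ^ (B + 1) := by ring
    have b1 := h1 X e1 K g1 a ha
    have b2 := h1 y (e1.trans hXy) K g2 a ha
    have b2' : y / Real.log y ^ (2 * U + 4) ≤ 3 * X / L ^ (2 * U + 4) := by
      apply div_le_div₀ (by positivity) hyX (by positivity)
      exact pow_le_pow_left₀ hL0.le hlogy1 _
    have hsum : h * ∑ k ∈ Icc 1 K, |cs lio Y k (a k)| ≤
        ∑ k ∈ Icc 1 K, |TAP y k (a k)| + ∑ k ∈ Icc 1 K, |TAP X k (a k)| + ∑ k ∈ Icc 1 K, (2 * h * X / k + 1) * h := by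
      rw [mul_sum, ← sum_add_distrib, ← sum_add_distrib]
      apply sum_le_sum
      intro k hk
      rw [mem_Icc] at hk
      have := unsm Y k (a k) hY1 hk.1 h hh0 hh1
      rw [hY] at this
      exact this
    have hlast : ∑ k ∈ Icc 1 K, (2 * h * X / k + 1) * h ≤ (4 * h * X * L + Real.sqrt X) * h := by
      rw [← sum_mul]
      apply mul_le_mul_of_nonneg_right _ hh0.le
      rw [sum_add_distrib]
      have h3 : ∑ k ∈ Icc 1 K, 2 * h * X / (k:ℝ) = 2 * h * X * ∑ k ∈ Icc 1 K, 1 / (k:ℝ) := by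
        rw [mul_sum]
        apply sum_congr rfl
        intro k _
        ring
      have h4 : ∑ k ∈ Icc 1 K, 1 / (k:ℝ) ≤ 2 * L := by
        refine (harm_le' K).trans ?_
        have h5 : Real.log K ≤ L := by
          apply log_natCast_le _ X hX1
          refine hKX.trans ?_
          calc Real.sqrt X = Real.sqrt X * 1 := (mul_one _).symm
            _ ≤ Real.sqrt X * Real.sqrt X := by gcongr
            _ = X := hss
        linarith
      rw [h3]
      have h6 : 2 * h * X * ∑ k ∈ Icc 1 K, 1 / (k:ℝ) ≤ 2 * h * X * (2 * L) := mul_le_mul_of_nonneg_left h4 (by positivity)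
      have h7 : ∑ _k ∈ Icc 1 K, (1:ℝ) = K := by simp
      rw [h7]
      linarith
    have hLp : L ^ (2 * U + 4) = L ^ (U + 2) * (L ^ U * L ^ 2) := by ring
    have hcs : ∑ k ∈ Icc 1 K, |cs lio Y k (a k)| ≤ 4 * X / (L ^ U * L ^ 2) + 4 * h * X * L + Real.sqrt X := by
      have h3 : h * ∑ k ∈ Icc 1 K, |cs lio Y k (a k)| ≤ h * (4 * X / (L ^ U * L ^ 2) + 4 * h * X * L + Real.sqrt X) := by
        refine hsum.trans ?_
        have h4 : h * (4 * X / (L ^ U * L ^ 2)) = 3 * X / L ^ (2 * U + 4) + X / L ^ (2 * U + 4) := by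
          rw [hh, hLp]
          field_simp
          ring
        have h5 : h * (4 * X / (L ^ U * L ^ 2) + 4 * h * X * L + Real.sqrt X) =
            h * (4 * X / (L ^ U * L ^ 2)) + (4 * h * X * L + Real.sqrt X) * h := by ring
        rw [h5, h4]
        linarith
      exact le_of_mul_le_mul_left h3 hh0
    refine hcs.trans ?_
    have k1 : 4 * X / (L ^ U * L ^ 2) ≤ (1 / 5) * (X / L ^ U) := by
      have : 4 * X / (L ^ U * L ^ 2) = (4 / L ^ 2) * (X / L ^ U) := by field_simp
      rw [this]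
      apply mul_le_mul_of_nonneg_right _ hXU.le
      rw [div_le_iff₀ (by positivity)]
      nlinarith
    have k2 : 4 * h * X * L ≤ (1 / 5) * (X / L ^ U) := by
      have : 4 * h * X * L = (4 / L) * (X / L ^ U) := by
        rw [hh, pow_add]
        field_simp
      rw [this]
      apply mul_le_mul_of_nonneg_right _ hXU.le
      rw [div_le_iff₀ hL0]
      linarith
    have k3 : Real.sqrt X ≤ (1 / 4) * (X / L ^ U) := by
      have : Real.sqrt X * (4 * L ^ U) ≤ X := by
        calc Real.sqrt X * (4 * L ^ U) ≤ Real.sqrt X * Real.sqrt X := by gcongr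
          _ = X := hss
      rw [← le_div_iff₀ (by positivity)] at this
      refine this.trans (le_of_eq ?_)
      field_simp
    linarith
  rw [eventually_atTop] at ev
  obtain ⟨X0, hX0⟩ := ev
  exact ⟨B + 1, ⌈X0⌉₊, fun Y hY => hX0 Y ((Nat.le_ceil _).trans (by exact_mod_cast hY)) Y rfl⟩

end Pool.Agent.Y868.TE
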