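import Pool.Agent.Y868.TE.L7

/-! All residue classes. -/

set_option autoImplicit false

open Finset Filter Topology

namespace Pool.Agent.Y868.TE

open Pool.Agent.Helper112 Pool.Agent.H398R2.BV
open Pool.Agent.H373R2.T7 Pool.Agent.Y868.TA

lemma cs_gcd (Y k a : ℕ) (hk : 1 ≤ k) :
    cs lio Y k a = lio (a.gcd k) * cs lio (Y / a.gcd k) (k / a.gcd k) (a / a.gcd k) := by
  obtain ⟨g, hg⟩ : ∃ g, g = a.gcd k := ⟨_, rfl⟩
  rw [← hg]
  have hg0 : 0 < g := by rw [hg]; exact Nat.gcd_pos_of_pos_right _ hk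
  obtain ⟨k', hk'⟩ : g ∣ k := by rw [hg]; exact Nat.gcd_dvd_right _ _
  obtain ⟨a', ha'⟩ : g ∣ a := by rw [hg]; exact Nat.gcd_dvd_left _ _
  have e1 : k / g = k' := by rw [hk']; exact Nat.mul_div_cancel_left _ hg0
  have e2 : a / g = a' := by rw [ha']; exact Nat.mul_div_cancel_left _ hg0
  rw [e1, e2]
  unfold cs
  have h1 : (Icc 1 Y).filter (fun n => n ≡ a [MOD k]) =
      ((Icc 1 (Y / g)).filter (fun n => n ≡ a' [MOD k'])).image (fun n => g * n) := by
    ext n
    rw [mem_filter, mem_Icc, mem_image]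
    constructor
    · rintro ⟨⟨h1, h2⟩, h3⟩
      have h4 : g ∣ n := (h3.dvd_iff ⟨k', hk'⟩).2 ⟨a', ha'⟩
      obtain ⟨j, rfl⟩ := h4
      refine ⟨j, ?_, rfl⟩
      rw [mem_filter, mem_Icc, Nat.le_div_iff_mul_le hg0]
      refine ⟨⟨?_, by rw [mul_comm]; exact h2⟩, ?_⟩
      · by_contra h
        have : j = 0 := by omega
        subst this
        simp at h1
      · rw [hk', ha'] at h3
        exact (Nat.ModEq.mul_left_cancel_iff' hg0.ne').1 h3
    · rintro ⟨j, hj, rfl⟩
      rw [mem_filter, mem_Icc, Nat.le_div_iff_mul_le hg0] at hj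
      refine ⟨⟨Nat.mul_pos hg0 hj.1.1, by rw [mul_comm]; exact hj.1.2⟩, ?_⟩
      rw [hk', ha']
      exact (Nat.ModEq.mul_left_cancel_iff' hg0.ne').2 hj.2
  rw [h1, sum_image (by intro a _ b _ h; exact Nat.eq_of_mul_eq_mul_left hg0 h), mul_sum]
  apply sum_congr rfl
  intro n _
  rw [lio_mul]

/-- The Bombieri–Vinogradov theorem for the Liouville function, with a free choice of the residue
class for every modulus. -/
theorem bv_all (U : ℕ) : ∃ (B : ℕ) (Y0 : ℕ), ∀ Y : ℕ, Y0 ≤ Y → ∀ K : ℕ,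
    (K : ℝ) ≤ Real.sqrt Y / Real.log Y ^ B → ∀ a : ℕ → ℕ,
    ∑ k ∈ Icc 1 K, |cs lio Y k (a k)| ≤ Y / Real.log Y ^ U := by
  obtain ⟨B, Y1, h1⟩ := bv_red (U + 2)
  have hlog : Tendsto Real.log atTop atTop := Real.tendsto_log_atTop
  have hsq : Tendsto Real.sqrt atTop atTop := Real.tendsto_sqrt_atTop
  have ev : ∀ᶠ X : ℝ in atTop, ∀ Y : ℕ, (Y:ℝ) = X → ∀ K : ℕ, (K : ℝ) ≤ Real.sqrt Y / Real.log Y ^ (B + 1) → ∀ a : ℕ → ℕ,
      ∑ k ∈ Icc 1 K, |cs lio Y k (a k)| ≤ Y / Real.log Y ^ U := by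
    filter_upwards [hsq.eventually_ge_atTop (2 * Y1 + 4), eventually_ge_atTop (4:ℝ),
      hlog.eventually_ge_atTop (2 * 4 ^ (U + 2) + 10)] with X e1 e2 e3 Y hY K hK a
    have hX0 : 0 < X := by linarith
    have hX1 : 1 ≤ X := by linarith
    rw [hY] at hK ⊢
    set L := Real.log X with hL
    have h4U : (1:ℝ) ≤ 4 ^ (U + 2) := one_le_pow₀ (by norm_num)
    have hL10 : 10 ≤ L := by linarith
    have hL1 : 1 ≤ L := by linarith
    have hL0 : 0 < L := by linarith
    have hsX : 0 < Real.sqrt X := Real.sqrt_pos.mpr hX0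
    have hss : Real.sqrt X * Real.sqrt X = X := Real.mul_self_sqrt hX0.le
    have hXU : 0 < X / L ^ U := by positivity
    have hKX : (K:ℝ) ≤ Real.sqrt X := hK.trans (div_le_self hsX.le (one_le_pow₀ hL1))
    have hY1n : (0:ℝ) ≤ (Y1:ℝ) := Nat.cast_nonneg _
    set gg : ℕ → ℕ := fun k => (a k).gcd k with hgg
    set b : ℕ → ℕ → ℕ := fun g k' => if (a (g * k')).gcd (g * k') = g then a (g * k') / g else 1 with hb
    have hbc : ∀ g, 1 ≤ g → ∀ k', 1 ≤ k' → (b g k').Coprime k' := by
      intro g hg k' _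
      rw [hb]
      simp only
      split_ifs with h
      · have h2 := Nat.coprime_div_gcd_div_gcd (m := a (g * k')) (n := g * k') (by rw [h]; exact hg)
        rw [h, Nat.mul_div_cancel_left k' hg] at h2
        exact h2
      · exact Nat.coprime_one_left k'
    have hone : ∀ k ∈ Icc 1 K, |cs lio Y k (a k)| ≤ |cs lio (Y / gg k) (k / gg k) (b (gg k) (k / gg k))| := by
      intro k hk
      rw [mem_Icc] at hk
      have hgd : gg k ∣ k := Nat.gcd_dvd_right _ _
      have h2 : b (gg k) (k / gg k) = a k / gg k := by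
        rw [hb]
        simp only
        rw [Nat.mul_div_cancel' hgd, if_pos rfl]
      rw [h2, cs_gcd Y k (a k) hk.1, abs_mul]
      exact mul_le_of_le_one_left (abs_nonneg _) (lio_abs _)
    have hsum1 : ∑ k ∈ Icc 1 K, |cs lio Y k (a k)| ≤
        ∑ g ∈ Icc 1 K, ∑ k' ∈ Icc 1 (K / g), |cs lio (Y / g) k' (b g k')| := by
      refine (sum_le_sum hone).trans ?_
      rw [sum_sigma']
      have h2 : ∑ k ∈ Icc 1 K, |cs lio (Y / gg k) (k / gg k) (b (gg k) (k / gg k))| =
          ∑ p ∈ (Icc 1 K).image (fun k => (⟨gg k, k / gg k⟩ : (_ : ℕ) × ℕ)), |cs lio (Y / p.1) p.2 (b p.1 p.2)| := by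
        rw [sum_image]
        intro x _ y _ hxy
        have h3 : gg x = gg y ∧ x / gg x = y / gg y := by
          simp only [Sigma.mk.inj_iff, heq_eq_eq] at hxy
          exact hxy
        calc x = gg x * (x / gg x) := (Nat.mul_div_cancel' (Nat.gcd_dvd_right _ _)).symm
          _ = gg y * (y / gg y) := by rw [h3.1, ← h3.2, h3.1]
          _ = y := Nat.mul_div_cancel' (Nat.gcd_dvd_right _ _)
      rw [h2]
      apply sum_le_sum_of_subset_of_nonneg
      · intro p hp
        rw [mem_image] at hp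
        obtain ⟨k, hk, rfl⟩ := hp
        rw [mem_Icc] at hk
        have hgd : gg k ∣ k := Nat.gcd_dvd_right _ _
        have hg0 : 0 < gg k := Nat.gcd_pos_of_pos_right _ hk.1
        have hgk : gg k ≤ k := Nat.le_of_dvd hk.1 hgd
        rw [mem_sigma, mem_Icc, mem_Icc]
        refine ⟨⟨hg0, hgk.trans hk.2⟩, Nat.div_pos hgk hg0, Nat.div_le_div_right hk.2⟩
      · intro _ _ _
        exact abs_nonneg _
    refine hsum1.trans ?_
    have hg : ∀ g ∈ Icc 1 K, ∑ k' ∈ Icc 1 (K / g), |cs lio (Y / g) k' (b g k')| ≤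
        (4 ^ (U + 2) * X / L ^ (U + 2)) * (1 / (g:ℝ)) := by
      intro g hg
      rw [mem_Icc] at hg
      have hg1 : (1:ℝ) ≤ g := by exact_mod_cast hg.1
      have hg0 : (0:ℝ) < g := by linarith
      have hgK : (g:ℝ) ≤ K := by exact_mod_cast hg.2
      have hgs : (g:ℝ) ≤ Real.sqrt X := hgK.trans hKX
      have hXg : Real.sqrt X ≤ X / g := by
        rw [le_div_iff₀ hg0]
        calc Real.sqrt X * (g:ℝ) ≤ Real.sqrt X * Real.sqrt X := by gcongr
          _ = X := hss
      have hup : ((Y / g : ℕ) : ℝ) ≤ X / g := by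
        have := Nat.cast_div_le (α := ℝ) (m := Y) (n := g)
        rw [hY] at this
        exact this
      have hlo : X / g / 2 ≤ ((Y / g : ℕ) : ℝ) := by
        have h3 : Y < (Y / g + 1) * g := by
          have := Nat.lt_div_mul_add (a := Y) (b := g) hg.1
          rw [add_mul, one_mul]
          exact this
        have h4 : (Y:ℝ) < ((Y / g : ℕ) + 1) * g := by exact_mod_cast h3
        rw [hY, ← div_lt_iff₀ hg0] at h4
        linarith
      have hYg0 : (0:ℝ) < ((Y / g : ℕ) : ℝ) := by linarith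
      have hYg1 : Y1 ≤ Y / g := by
        have : (Y1:ℝ) ≤ ((Y / g : ℕ) : ℝ) := by linarith
        exact_mod_cast this
      have hlog1 : Real.log ((Y / g : ℕ) : ℝ) ≤ L := by
        apply Real.log_le_log hYg0
        exact hup.trans (div_le_self hX0.le hg1)
      have hlog2 : L / 4 ≤ Real.log ((Y / g : ℕ) : ℝ) := by
        have h3 : Real.log (Real.sqrt X / 2) ≤ Real.log ((Y / g : ℕ) : ℝ) :=
          Real.log_le_log (by positivity) (by linarith)
        rw [Real.log_div hsX.ne' (by norm_num), Real.log_sqrt hX0.le] at h3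
        have h4 : Real.log 2 < 1 := by
          have := Real.log_two_lt_d9
          linarith
        rw [← hL] at h3
        linarith
      have hlog0 : 0 < Real.log ((Y / g : ℕ) : ℝ) := by linarith
      have hKg : ((K / g : ℕ) : ℝ) ≤ Real.sqrt ((Y / g : ℕ) : ℝ) / Real.log ((Y / g : ℕ) : ℝ) ^ B := by
        have h5 : ((K / g : ℕ) : ℝ) ≤ (K:ℝ) / g := Nat.cast_div_le
        refine h5.trans ?_
        have h6 : (K:ℝ) / g ≤ (Real.sqrt X / L ^ (B + 1)) / g := div_le_div_of_nonneg_right hK hg0.le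
        refine h6.trans ?_
        have h7 : Real.sqrt X / (2 * g) ≤ Real.sqrt ((Y / g : ℕ) : ℝ) := by
          apply Real.le_sqrt_of_sq_le
          refine le_trans ?_ hlo
          rw [div_pow, Real.sq_sqrt hX0.le, div_div]
          apply div_le_div_of_nonneg_left hX0.le (by positivity)
          nlinarith
        calc Real.sqrt X / L ^ (B + 1) / g = (Real.sqrt X / (2 * g)) * (2 / L) / L ^ B := by
              rw [pow_succ]
              field_simp
          _ ≤ Real.sqrt ((Y / g : ℕ) : ℝ) * 1 / L ^ B := by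
              apply div_le_div_of_nonneg_right _ (by positivity)
              apply mul_le_mul h7 _ (by positivity) (Real.sqrt_nonneg _)
              rw [div_le_one hL0]
              linarith
          _ ≤ Real.sqrt ((Y / g : ℕ) : ℝ) / Real.log ((Y / g : ℕ) : ℝ) ^ B := by
              rw [mul_one]
              apply div_le_div_of_nonneg_left (Real.sqrt_nonneg _) (by positivity)
              exact pow_le_pow_left₀ hlog0.le hlog1 _
      refine (h1 (Y / g) hYg1 (K / g) hKg (b g) (hbc g hg.1)).trans ?_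
      calc ((Y / g : ℕ) : ℝ) / Real.log ((Y / g : ℕ) : ℝ) ^ (U + 2) ≤ (X / g) / (L / 4) ^ (U + 2) := by
            apply div_le_div₀ (by positivity) hup (by positivity)
            exact pow_le_pow_left₀ (by positivity) hlog2 _
        _ = _ := by
            rw [div_pow]
            field_simp
    refine (sum_le_sum hg).trans ?_
    rw [← mul_sum]
    have h5 : ∑ g ∈ Icc 1 K, 1 / (g:ℝ) ≤ 2 * L := by
      refine (harm_le' K).trans ?_
      have h5 : Real.log K ≤ L := by
        apply log_natCast_le _ X hX1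
        refine hKX.trans ?_
        rw [Real.sqrt_le_left hX0.le]
        nlinarith
      linarith
    calc (4 ^ (U + 2) * X / L ^ (U + 2)) * ∑ g ∈ Icc 1 K, 1 / (g:ℝ) ≤ (4 ^ (U + 2) * X / L ^ (U + 2)) * (2 * L) :=
          mul_le_mul_of_nonneg_left h5 (by positivity)
      _ = (2 * 4 ^ (U + 2) / L) * (X / L ^ U) := by
          have : L ^ (U + 2) = L ^ U * L * L := by ring
          rw [this]
          field_simp
      _ ≤ 1 * (X / L ^ U) := by
          apply mul_le_mul_of_nonneg_right _ hXU.le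
          rw [div_le_one hL0]
          linarith
      _ = _ := one_mul _
  rw [eventually_atTop] at ev
  obtain ⟨X0, hX0⟩ := ev
  exact ⟨B + 1, ⌈X0⌉₊, fun Y hY => hX0 Y ((Nat.le_ceil _).trans (by exact_mod_cast hY)) Y rfl⟩

end Pool.Agent.Y868.TE
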